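import Mathlib

set_option autoImplicit false

/-!
# The arithmetic of the coefficients of the splices

Two parameters with the same `e`, `σ`, `X`, `Z` and different `u` lead to integers `P`, `Q`, `D`, `E`
with `64 p = (P + E) (Q + D)`, `64 r = (P - E) (Q - D)`, `64 p' = (P + E) (Q - D)`,
`64 r' = (P - E) (Q + D)`, `13 n = P + Q`, `σ = 3 n`, `2 s = σ + D + E` etc., and the equations
from the coefficients of degree six and seven are contradictory modulo `9`.
-/

namespace Pool.Agent.Zk52.LMO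

/-- the congruences modulo `9` -/
def bad (P Q D E : ZMod 9) : Bool :=
  let n := 7 * (P + Q)
  let p := (P + E) * (Q + D)
  let r := (P - E) * (Q - D)
  let p' := (P + E) * (Q - D)
  let r' := (P - E) * (Q + D)
  let s := 5 * (3 * n + D + E)
  let t := 5 * (3 * n - D - E)
  let s' := 5 * (3 * n - D + E)
  let t' := 5 * (3 * n + D - E)
  let X := s * t + 16 * (p + r)
  let e := p * r
  let sq : ZMod 9 → Bool := fun y => decide (y = 0 ∨ y = 1 ∨ y = 4 ∨ y = 7)
  (decide (5 * (P * Q) = 6 * n ^ 2 + 3 * X + 6 * e + 6)) &&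
    (decide (n * (2 * X + 4 * e + 3) = 0)) && sq (s ^ 2 - 4 * p) && sq (t ^ 2 - 4 * r) &&
    sq (s' ^ 2 - 4 * p') && sq (t' ^ 2 - 4 * r')

/-- they have no common solution -/
theorem not_bad : ∀ P Q D E : ZMod 9, bad P Q D E = false := by
  decide +kernel

theorem sq_mod9 : ∀ y : ZMod 9, y ^ 2 = 0 ∨ y ^ 2 = 1 ∨ y ^ 2 = 4 ∨ y ^ 2 = 7 := by
  decide

/-- a rational root of a monic quadratic polynomial with integer coefficients is an integer -/
theorem exists_int {α D m S : ℤ} (hD : D ≠ 0) (h : α * (m * D - α) = S * D ^ 2) :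
    ∃ P : ℤ, P * D = α := by
  have hD' : (D : ℚ) ≠ 0 := by exact_mod_cast hD
  have hx : IsIntegral ℤ ((α : ℚ) / D) := by
    refine ⟨(Polynomial.X : Polynomial ℤ) ^ 2 + (Polynomial.C (-m) * Polynomial.X +
      Polynomial.C S), ?_, ?_⟩
    · refine Polynomial.monic_X_pow_add ?_
      refine (Polynomial.degree_add_le _ _).trans_lt ?_
      refine max_lt ?_ ?_
      · exact (Polynomial.degree_C_mul_X_le (-m)).trans_lt (by norm_num)
      · exact (Polynomial.degree_C_le).trans_lt (by norm_num)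
    · rw [Polynomial.eval₂_add, Polynomial.eval₂_add, Polynomial.eval₂_pow, Polynomial.eval₂_X,
        Polynomial.eval₂_mul, Polynomial.eval₂_X, Polynomial.eval₂_C, Polynomial.eval₂_C,
        eq_intCast, eq_intCast]
      have h' : (α : ℚ) * (m * D - α) = S * D ^ 2 := by exact_mod_cast h
      push_cast
      field_simp
      linarith
  obtain ⟨P, hP⟩ := IsIntegrallyClosed.isIntegral_iff.1 hx
  refine ⟨P, ?_⟩
  have : (P : ℚ) * D = α := by
    rw [eq_intCast] at hP
    rw [hP]
    field_simp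
  exact_mod_cast this

/-- **no collisions** with different `u` -/
theorem no_coll {p r s t p' r' s' t' k₁ k₂ k₃ k₄ : ℤ}
    (h1 : s ^ 2 - 4 * p = k₁ ^ 2) (h2 : t ^ 2 - 4 * r = k₂ ^ 2)
    (h3 : s' ^ 2 - 4 * p' = k₃ ^ 2) (h4 : t' ^ 2 - 4 * r' = k₄ ^ 2)
    (hσ : s + t = s' + t') (he : p * r = p' * r')
    (hX : s * t + 16 * (p + r) = s' * t' + 16 * (p' + r'))
    (hZ : 3 * (p * s + r * t) - 8 * (p + r) * (s + t) =
      3 * (p' * s' + r' * t') - 8 * (p' + r') * (s' + t'))
    (hu : p + r ≠ p' + r')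
    (h6 : 272 * (s + t) ^ 2 + 279 * (s * t + 16 * (p + r)) + 5040 * (p * r) + 315 =
      4560 * (p + r + (p' + r')))
    (h7 : 4050 * (3 * (p * s + r * t) - 8 * (p + r) * (s + t)) =
      2376 * (s + t) ^ 3 + 1442 * (s + t) * (s * t + 16 * (p + r)) + 126400 * (s + t) * (p * r) +
        7995 * (s + t) - 60840 * (s + t) * (p + r + (p' + r'))) : False := by
  -- `σ = 3 n`
  obtain ⟨n, hn⟩ : ∃ n, s + t = 3 * n := by
    have h : (3 : ℤ) ∣ (s + t) ^ 2 :=
      ⟨91 * (s + t) ^ 2 - (1520 * (p + r + (p' + r')) - 93 * (s * t + 16 * (p + r)) -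
        1680 * (p * r) - 105), by linarith⟩
    exact Int.prime_three.dvd_of_dvd_pow h
  obtain ⟨D, hD⟩ : ∃ D, D = s - s' := ⟨_, rfl⟩
  obtain ⟨E, hE⟩ : ∃ E, E = s - t' := ⟨_, rfl⟩
  have hDE : D * E = 16 * ((p + r) - (p' + r')) := by
    have e : t = s' + t' - s := by linarith
    rw [e] at hX
    rw [hD, hE]
    linarith
  have hDE0 : D * E ≠ 0 := by
    rw [hDE]
    intro h
    apply hu
    linarith
  have hD0 : D ≠ 0 := left_ne_zero_of_mul hDE0
  have hE0 : E ≠ 0 := right_ne_zero_of_mul hDE0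
  have es : s' = s - D := by linarith
  have et' : t' = s - E := by linarith
  have et : t = s' + t' - s := by linarith
  -- the relation between `Z` and the differences
  have hR : (p - r + (p' - r')) * D + (p - r - (p' - r')) * E =
      13 * n * ((p + r) - (p' + r')) := by
    have hn' : s' + t' = 3 * n := by linarith
    rw [hn, hn'] at hZ
    have e2 : t = 3 * n - s := by linarith
    have e3 : t' = 3 * n - s' := by linarith
    rw [e2, e3] at hZ
    have e4 : s' = s - D := es
    have e5 : E = 2 * s - D - 3 * n := by linarith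
    rw [e4] at hZ
    rw [e5]
    linarith
  have hzz : (p - r) ^ 2 - (p' - r') ^ 2 = (p + r) ^ 2 - (p' + r') ^ 2 := by linarith
  -- the integer `P`
  obtain ⟨P, hP⟩ : ∃ P : ℤ, P * D = 16 * (p - r - (p' - r')) := by
    refine exists_int (m := 13 * n) (S := 16 * (p + r + (p' + r'))) hD0 ?_
    have : E * ((16 * (p - r - (p' - r'))) * (13 * n * D - 16 * (p - r - (p' - r'))) -
        16 * (p + r + (p' + r')) * D ^ 2) = 0 := by
      have e1 : 13 * n * (D * E) = 16 * ((p - r + (p' - r')) * D + (p - r - (p' - r')) * E) := by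
        rw [hDE, hR]; ring
      linear_combination (16 * (p - r - (p' - r'))) * e1 +
        (-16 * (p + r + (p' + r')) * D) * hDE + 256 * D * hzz
    rcases mul_eq_zero.1 this with h | h
    · exact absurd h hE0
    · linarith
  obtain ⟨Q, hQ⟩ : ∃ Q : ℤ, Q = 13 * n - P := ⟨_, rfl⟩
  have hQE : Q * E = 16 * (p - r + (p' - r')) := by
    have : D * (Q * E - 16 * (p - r + (p' - r'))) = 0 := by
      rw [hQ]
      linear_combination (13 * n) * hDE - 16 * hR - E * hP
    rcases mul_eq_zero.1 this with h | h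
    · exact absurd h hD0
    · linarith
  have hPQ : P * Q = 16 * (p + r + (p' + r')) := by
    have : (D * E) * (P * Q - 16 * (p + r + (p' + r'))) = 0 := by
      linear_combination (Q * E) * hP + (16 * (p - r - (p' - r'))) * hQE -
        16 * (p + r + (p' + r')) * hDE + 256 * hzz
    rcases mul_eq_zero.1 this with h | h
    · exact absurd h hDE0
    · linarith
  have f1 : 64 * p = (P + E) * (Q + D) := by linarith
  have f2 : 64 * r = (P - E) * (Q - D) := by linarith
  have f3 : 64 * p' = (P + E) * (Q - D) := by linarith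
  have f4 : 64 * r' = (P - E) * (Q + D) := by linarith
  have g1 : 2 * s = 3 * n + D + E := by linarith
  have g2 : 2 * t = 3 * n - D - E := by linarith
  have g3 : 2 * s' = 3 * n - D + E := by linarith
  have g4 : 2 * t' = 3 * n + D - E := by linarith
  have hn13 : 13 * n = P + Q := by linarith
  -- degree six and seven
  have m6 : 95 * (P * Q) = 816 * n ^ 2 + 93 * (s * t + 16 * (p + r)) + 1680 * (p * r) + 105 := by
    rw [hn] at h6
    linarith
  have m7 : 1350 * (3 * (p * s + r * t) - 8 * (p + r) * (s + t)) =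
      n * (21384 * n ^ 2 + 1442 * (s * t + 16 * (p + r)) + 126400 * (p * r) + 7995 -
        60840 * (p + r + (p' + r'))) := by
    have h7' := h7
    rw [hn] at h7' ⊢
    linarith
  -- modulo `9`
  have c9 : ∀ {x y : ℤ}, x = y → (x : ZMod 9) = (y : ZMod 9) := fun h => by rw [h]
  have i2 : (5 : ZMod 9) * 2 = 1 := by decide
  have i64 : (64 : ZMod 9) = 1 := by decide
  have z1 := c9 f1
  have z2 := c9 f2
  have z3 := c9 f3
  have z4 := c9 f4
  have y1 := c9 g1
  have y2 := c9 g2
  have y3 := c9 g3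
  have y4 := c9 g4
  have yn := c9 hn13
  have w6 := c9 m6
  have w7 := c9 m7
  have q1 := c9 h1
  have q2 := c9 h2
  have q3 := c9 h3
  have q4 := c9 h4
  push_cast at z1 z2 z3 z4 y1 y2 y3 y4 yn w6 w7 q1 q2 q3 q4
  rw [i64, one_mul] at z1 z2 z3 z4
  have hs : (s : ZMod 9) = 5 * (3 * n + D + E) := by
    rw [← y1, ← mul_assoc, i2, one_mul]
  have ht : (t : ZMod 9) = 5 * (3 * n - D - E) := by
    rw [← y2, ← mul_assoc, i2, one_mul]
  have hs' : (s' : ZMod 9) = 5 * (3 * n - D + E) := by
    rw [← y3, ← mul_assoc, i2, one_mul]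
  have ht' : (t' : ZMod 9) = 5 * (3 * n + D - E) := by
    rw [← y4, ← mul_assoc, i2, one_mul]
  have hn9 : (n : ZMod 9) = 7 * (P + Q) := by
    rw [← yn, ← mul_assoc, show (7 : ZMod 9) * 13 = 1 by decide, one_mul]
  have w6' : (5 : ZMod 9) * (P * Q) = 6 * n ^ 2 + 3 * (s * t + 16 * (p + r)) + 6 * (p * r) + 6 := by
    rw [show (5 : ZMod 9) = 95 by decide, w6]
    rw [show (816 : ZMod 9) = 6 by decide, show (93 : ZMod 9) = 3 by decide,
      show (1680 : ZMod 9) = 6 by decide, show (105 : ZMod 9) = 6 by decide]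
  have w7' : (n : ZMod 9) * (2 * (s * t + 16 * (p + r)) + 4 * (p * r) + 3) = 0 := by
    rw [show (1350 : ZMod 9) = 0 by decide, zero_mul, show (21384 : ZMod 9) = 0 by decide,
      show (1442 : ZMod 9) = 2 by decide, show (126400 : ZMod 9) = 4 by decide,
      show (7995 : ZMod 9) = 3 by decide, show (60840 : ZMod 9) = 0 by decide, zero_mul, zero_mul,
      zero_add, sub_zero] at w7
    exact w7.symm
  have key := not_bad (P : ZMod 9) Q D E
  have s1 := sq_mod9 (k₁ : ZMod 9)
  have s2 := sq_mod9 (k₂ : ZMod 9)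
  have s3 := sq_mod9 (k₃ : ZMod 9)
  have s4 := sq_mod9 (k₄ : ZMod 9)
  rw [← q1] at s1
  rw [← q2] at s2
  rw [← q3] at s3
  rw [← q4] at s4
  simp only [bad, ← hn9] at key
  simp only [← z1, ← z2, ← z3, ← z4, ← hs, ← ht, ← hs', ← ht'] at key
  simp [w6', w7', s1, s2, s3, s4] at key

end Pool.Agent.Zk52.LMO
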