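import Mathlib

set_option autoImplicit false

/-! The arithmetic for the twisted doubles. -/

namespace Pool.Agent.Zk52.LMO

/-- two integers are determined by their sum and product -/
theorem pair_ms {x y x' y' : ℤ} (hs : x + y = x' + y') (hp : x * y = x' * y') :
    ({x, y} : Multiset ℤ) = {x', y'} := by
  have h : (x - x') * (x - y') = 0 := by
    have : y = x' + y' - x := by linarith
    rw [this] at hp
    linarith
  rcases mul_eq_zero.1 h with h | h
  · have h1 : x = x' := by linarith
    have h2 : y = y' := by linarith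
    rw [h1, h2]
  · have h1 : x = y' := by linarith
    have h2 : y = x' := by linarith
    rw [h1, h2]
    exact Multiset.cons_swap _ _ _

/-- If `K / t - K / t'` is an integer and `|K / t|, |K / t'| < 1 / 2`, then `t = t'`. -/
theorem eq_of_frac {K t t' D : ℤ} (hK : K ≠ 0) (ht : 2 * |K| < |t|) (ht' : 2 * |K| < |t'|)
    (h : K * (t' - t) = D * (t * t')) : t = t' := by
  have hD : D = 0 := by
    by_contra hD
    have h1 : 1 ≤ |D| := Int.one_le_abs hD
    have h2 : |K * (t' - t)| = |D| * (|t| * |t'|) := by rw [h, abs_mul, abs_mul]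
    have h3 : |K * (t' - t)| ≤ |K| * (|t'| + |t|) := by
      rw [abs_mul]
      exact mul_le_mul_of_nonneg_left (abs_sub _ _) (abs_nonneg _)
    have hK0 := abs_nonneg K
    have ht0 : 0 < |t| := by linarith
    have ht0' : 0 < |t'| := by linarith
    have h4 : |t| * |t'| ≤ |D| * (|t| * |t'|) := by
      have := mul_pos ht0 ht0'
      nlinarith
    have h5 : 2 * |K| * |t'| < |t| * |t'| := mul_lt_mul_of_pos_right ht ht0'
    have h6 : 2 * |K| * |t| < |t'| * |t| := mul_lt_mul_of_pos_right ht' ht0
    nlinarith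
  rw [hD, zero_mul] at h
  rcases mul_eq_zero.1 h with h | h
  · exact absurd h hK
  · linarith

/-- if `K / t - K / t'` is an integer and `t ≠ t'`, then `t` and `t'` are small -/
theorem small_of_frac {K t t' : ℤ} (hK : K ≠ 0) (ht0 : t ≠ 0) (ht0' : t' ≠ 0) (hne : t ≠ t')
    (h : t * t' ∣ K * (t' - t)) :
    min |t| |t'| ≤ 2 * |K| ∧ max |t| |t'| ≤ 2 * K ^ 2 := by
  obtain ⟨D, hD⟩ := h
  have h1 : min |t| |t'| ≤ 2 * |K| := by
    by_contra hcon
    rw [not_le, lt_min_iff] at hcon
    exact hne (eq_of_frac (D := D) hK hcon.1 hcon.2 (by rw [hD]; ring))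
  have h2 : |t'| ≤ |K| * |t| := by
    have e : t' * (D * t - K) = -(K * t) := by linarith
    have hne0 : D * t - K ≠ 0 := by
      intro h0
      rw [h0, mul_zero] at e
      have : K * t = 0 := by linarith
      exact (mul_ne_zero hK ht0) this
    have h3 : 1 ≤ |D * t - K| := Int.one_le_abs hne0
    have h4 : |t'| * |D * t - K| = |K| * |t| := by rw [← abs_mul, e, abs_neg, abs_mul]
    have := abs_nonneg t'
    nlinarith
  have h3 : |t| ≤ |K| * |t'| := by
    have e : t * (D * t' + K) = K * t' := by linarith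
    have hne0 : D * t' + K ≠ 0 := by
      intro h0
      rw [h0, mul_zero] at e
      exact (mul_ne_zero hK ht0') e.symm
    have h3 : 1 ≤ |D * t' + K| := Int.one_le_abs hne0
    have h4 : |t| * |D * t' + K| = |K| * |t'| := by rw [← abs_mul, e, abs_mul]
    have := abs_nonneg t
    nlinarith
  refine ⟨h1, ?_⟩
  have hK1 : 1 ≤ |K| := Int.one_le_abs hK
  have hKK : K ^ 2 = |K| * |K| := by rw [← abs_mul, ← sq, abs_of_nonneg (sq_nonneg K)]
  rw [hKK]
  rcases min_le_iff.1 h1 with h4 | h4
  · refine max_le ?_ ?_ <;> nlinarith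
  · refine max_le ?_ ?_ <;> nlinarith

end Pool.Agent.Zk52.LMO
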