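import Pool.Agent.Zk52.LMO.DoubleDefs

set_option autoImplicit false

/-!
# Divisibility of the terms for the twisted doubles

The coefficients of the value of a framed knot coloured by `V_{2 m + 1}` are polynomials in `m`: the
coefficient of `h ^ j` has degree at most `2 j + 1`. The value is odd with respect to
`m ↦ - m - 1`, and each of the factors `V_3 - q ^ l - 1 - q ^ (-l)` of `S_n` acts as a second
difference, up to terms of order `h ^ 2`. So the coefficient of `h ^ j` of the value coloured by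
`S_n V_{2 m + 1}` has degree at most `2 (j - n) + 1`, and it is `0` if `j < n`.
-/

namespace Pool.Agent.Zk52.LMO

open PowerSeries Finset

/-! ### polynomial functions on the integers -/

/-- `f` is a polynomial function of degree at most `d` (and `0` if `d < 0`) -/
def PD (d : ℤ) (f : ℤ → ℚ) : Prop :=
  ∃ p : Polynomial ℚ, (∀ m : ℤ, f m = p.eval (m : ℚ)) ∧ (p = 0 ∨ (p.natDegree : ℤ) ≤ d)

theorem PD.zero (d : ℤ) : PD d (fun _ => 0) := ⟨0, fun _ => by simp, Or.inl rfl⟩

theorem PD.const {d : ℤ} (hd : 0 ≤ d) (c : ℚ) : PD d (fun _ => c) :=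
  ⟨Polynomial.C c, fun _ => by simp, Or.inr (by simpa using hd)⟩

theorem PD.mono {d e : ℤ} {f : ℤ → ℚ} (h : PD d f) (hde : d ≤ e) : PD e f := by
  obtain ⟨p, hp, hd⟩ := h
  exact ⟨p, hp, hd.imp id (fun h => h.trans hde)⟩

theorem PD.congr {d : ℤ} {f g : ℤ → ℚ} (h : PD d f) (hfg : ∀ m, g m = f m) : PD d g := by
  obtain ⟨p, hp, hd⟩ := h
  exact ⟨p, fun m => by rw [hfg, hp], hd⟩

theorem PD.eq_zero {d : ℤ} {f : ℤ → ℚ} (h : PD d f) (hd : d < 0) (m : ℤ) : f m = 0 := by
  obtain ⟨p, hp, hpd⟩ := h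
  rcases hpd with rfl | hpd
  · rw [hp]; simp
  · have : (0 : ℤ) ≤ p.natDegree := Int.natCast_nonneg _
    omega

theorem PD.add {d : ℤ} {f g : ℤ → ℚ} (hf : PD d f) (hg : PD d g) : PD d (fun m => f m + g m) := by
  obtain ⟨p, hp, hpd⟩ := hf
  obtain ⟨r, hr, hrd⟩ := hg
  refine ⟨p + r, fun m => by beta_reduce; rw [hp, hr, Polynomial.eval_add], ?_⟩
  rcases hpd with rfl | hpd
  · simpa using hrd
  rcases hrd with rfl | hrd
  · right; simpa using hpd
  right
  have h1 := Polynomial.natDegree_add_le p r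
  have h2 : ((p + r).natDegree : ℤ) ≤ max (p.natDegree : ℤ) (r.natDegree : ℤ) := by exact_mod_cast h1
  exact h2.trans (max_le hpd hrd)

theorem PD.neg {d : ℤ} {f : ℤ → ℚ} (hf : PD d f) : PD d (fun m => - f m) := by
  obtain ⟨p, hp, hpd⟩ := hf
  refine ⟨-p, fun m => by beta_reduce; rw [hp, Polynomial.eval_neg], ?_⟩
  rcases hpd with rfl | hpd
  · left; simp
  · right; rwa [Polynomial.natDegree_neg]

theorem PD.sub {d : ℤ} {f g : ℤ → ℚ} (hf : PD d f) (hg : PD d g) : PD d (fun m => f m - g m) :=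
  (hf.add hg.neg).congr fun m => by ring

theorem PD.mul {d e : ℤ} {f g : ℤ → ℚ} (hf : PD d f) (hg : PD e g) :
    PD (d + e) (fun m => f m * g m) := by
  obtain ⟨p, hp, hpd⟩ := hf
  obtain ⟨r, hr, hrd⟩ := hg
  refine ⟨p * r, fun m => by beta_reduce; rw [hp, hr, Polynomial.eval_mul], ?_⟩
  rcases hpd with rfl | hpd
  · left; simp
  rcases hrd with rfl | hrd
  · left; simp
  right
  have h1 := Polynomial.natDegree_mul_le (p := p) (q := r)
  have h2 : ((p * r).natDegree : ℤ) ≤ (p.natDegree : ℤ) + (r.natDegree : ℤ) := by exact_mod_cast h1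
  linarith

theorem PD.sum {ι : Type} {s : Finset ι} {d : ℤ} {f : ι → ℤ → ℚ} (h : ∀ i ∈ s, PD d (f i)) :
    PD d (fun m => ∑ i ∈ s, f i m) := by
  classical
  induction s using Finset.induction_on with
  | empty => exact (PD.zero d).congr fun m => by simp
  | insert i s hi ih =>
    refine ((h i (mem_insert_self i s)).add (ih fun j hj => h j (mem_insert_of_mem hj))).congr ?_
    intro m
    rw [sum_insert hi]

theorem PD.shift {d : ℤ} {f : ℤ → ℚ} (hf : PD d f) (k : ℤ) : PD d (fun m => f (m + k)) := by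
  obtain ⟨p, hp, hpd⟩ := hf
  refine ⟨p.comp (Polynomial.X + Polynomial.C (k : ℚ)), fun m => ?_, ?_⟩
  · beta_reduce
    rw [hp, Polynomial.eval_comp]
    simp
  · rcases hpd with rfl | hpd
    · left; simp
    · right
      rw [Polynomial.natDegree_comp, Polynomial.natDegree_X_add_C, mul_one]
      exact hpd

theorem PD.diff {d : ℤ} {f : ℤ → ℚ} (hf : PD d f) : PD (d - 1) (fun m => f (m + 1) - f m) := by
  obtain ⟨p, hp, hpd⟩ := hf
  refine ⟨p.comp (Polynomial.X + Polynomial.C 1) - p, fun m => ?_, ?_⟩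
  · beta_reduce
    rw [hp, hp, Polynomial.eval_sub, Polynomial.eval_comp]
    simp
  · rcases hpd with rfl | hpd
    · left; simp
    by_cases h0 : p.comp (Polynomial.X + Polynomial.C 1) - p = 0
    · exact Or.inl h0
    right
    have hp0 : p ≠ 0 := by
      rintro rfl
      simp at h0
    have hn : (p.comp (Polynomial.X + Polynomial.C 1)).natDegree = p.natDegree := by
      rw [Polynomial.natDegree_comp, Polynomial.natDegree_X_add_C, mul_one]
    have hl : (p.comp (Polynomial.X + Polynomial.C 1)).leadingCoeff = p.leadingCoeff := by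
      rw [Polynomial.leadingCoeff_comp (by rw [Polynomial.natDegree_X_add_C]; norm_num),
        Polynomial.leadingCoeff_X_add_C, one_pow, mul_one]
    have hc0 : p.comp (Polynomial.X + Polynomial.C 1) ≠ 0 := by
      intro hc
      rw [hc, Polynomial.leadingCoeff_zero] at hl
      exact hp0 (Polynomial.leadingCoeff_eq_zero.1 hl.symm)
    have hd : (p.comp (Polynomial.X + Polynomial.C 1)).degree = p.degree := by
      rw [Polynomial.degree_eq_natDegree hc0, Polynomial.degree_eq_natDegree hp0, hn]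
    have := Polynomial.degree_sub_lt_right hd hp0 hl
    have := Polynomial.natDegree_lt_natDegree h0 this
    omega

theorem PD.diff2 {d : ℤ} {f : ℤ → ℚ} (hf : PD d f) :
    PD (d - 2) (fun m => f (m + 1) + f (m - 1) - 2 * f m) := by
  have h := (hf.diff.diff.shift (-1)).mono (show d - 1 - 1 ≤ d - 2 by omega)
  refine h.congr fun m => ?_
  have e1 : m + -1 + 1 + 1 = m + 1 := by ring
  have e2 : m + -1 + 1 = m := by ring
  have e3 : m + -1 = m - 1 := by ring
  rw [e1, e2, e3]
  ring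

/-! ### families of power series -/

/-- the coefficient of `h ^ j` is a polynomial function of degree at most `2 j + c` -/
def W (c : ℤ) (G : ℤ → PowerSeries ℤ) : Prop :=
  ∀ j : ℕ, PD (2 * j + c) (fun m => ((coeff j (G m) : ℤ) : ℚ))

theorem W.mono {c c' : ℤ} {G : ℤ → PowerSeries ℤ} (h : W c G) (hc : c ≤ c') : W c' G :=
  fun j => (h j).mono (by linarith)

theorem W.congr {c : ℤ} {G H : ℤ → PowerSeries ℤ} (h : W c G) (hc : ∀ m, H m = G m) : W c H :=
  fun j => (h j).congr fun m => by rw [hc]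

theorem W.const (f : PowerSeries ℤ) : W 0 (fun _ => f) :=
  fun j => PD.const (by positivity) _

theorem W.add {c : ℤ} {G H : ℤ → PowerSeries ℤ} (hG : W c G) (hH : W c H) :
    W c (fun m => G m + H m) :=
  fun j => ((hG j).add (hH j)).congr fun m => by rw [map_add, Int.cast_add]

theorem W.neg {c : ℤ} {G : ℤ → PowerSeries ℤ} (hG : W c G) : W c (fun m => - G m) :=
  fun j => (hG j).neg.congr fun m => by rw [map_neg, Int.cast_neg]

theorem W.sub {c : ℤ} {G H : ℤ → PowerSeries ℤ} (hG : W c G) (hH : W c H) :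
    W c (fun m => G m - H m) :=
  fun j => ((hG j).sub (hH j)).congr fun m => by rw [map_sub, Int.cast_sub]

theorem W.mul {c e : ℤ} {G H : ℤ → PowerSeries ℤ} (hG : W c G) (hH : W e H) :
    W (c + e) (fun m => G m * H m) := by
  intro j
  have h : PD (2 * j + (c + e)) (fun m => ∑ x ∈ antidiagonal j,
      ((coeff x.1 (G m) : ℤ) : ℚ) * ((coeff x.2 (H m) : ℤ) : ℚ)) := by
    refine PD.sum fun x hx => ?_
    rw [HasAntidiagonal.mem_antidiagonal] at hx
    refine ((hG x.1).mul (hH x.2)).mono ?_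
    rw [← hx]
    push_cast
    linarith
  refine h.congr fun m => ?_
  rw [coeff_mul]
  push_cast
  rfl

theorem W.prod {ι : Type} {s : Finset ι} {G : ι → ℤ → PowerSeries ℤ} (h : ∀ i ∈ s, W 0 (G i)) :
    W 0 (fun m => ∏ i ∈ s, G i m) := by
  classical
  induction s using Finset.induction_on with
  | empty => exact (W.const 1).congr fun m => by simp
  | insert i s hi ih =>
    refine ((h i (mem_insert_self i s)).mul (ih fun j hj => h j (mem_insert_of_mem hj))).congr ?_
    intro m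
    rw [prod_insert hi]

/-- multiplication by `h ^ 2` -/
theorem W.sq_mul {c : ℤ} {G : ℤ → PowerSeries ℤ} (hG : W c G) :
    W (c - 2) (fun m => X ^ 2 * G m) := by
  intro j
  by_cases hj : 2 ≤ j
  · refine ((hG (j - 2)).mono ?_).congr fun m => ?_
    · rw [Nat.cast_sub hj]
      push_cast
      linarith
    · obtain ⟨i, rfl⟩ := Nat.exists_eq_add_of_le' hj
      rw [coeff_X_pow_mul]
      simp
  · refine (PD.zero _).congr fun m => ?_
    rw [coeff_X_pow_mul', if_neg hj, Int.cast_zero]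

/-! ### powers of `q` -/

theorem q_qinv : q * qinv = 1 := by
  have h := (mk_one_mul_one_sub_eq_one ℤ)
  ext n
  unfold q qinv
  rw [add_mul, one_mul, map_add, coeff_mk]
  rcases n with _ | n
  · simp
  · rw [coeff_succ_X_mul, coeff_mk, coeff_one, if_neg (Nat.succ_ne_zero n), pow_succ]
    ring

theorem qz_eq (z : ℤ) : qz z = binomialSeries ℤ z := by
  have h1 : ∀ n : ℕ, (q : PowerSeries ℤ) ^ n = binomialSeries ℤ (n : ℤ) := by
    intro n
    rw [binomialSeries_nat]
    rfl
  have h2 : ∀ n : ℕ, (qinv : PowerSeries ℤ) ^ n = binomialSeries ℤ (-(n : ℤ)) := by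
    intro n
    have e1 : (q : PowerSeries ℤ) ^ n * qinv ^ n = 1 := by rw [← mul_pow, q_qinv, one_pow]
    have e2 : (q : PowerSeries ℤ) ^ n * binomialSeries ℤ (-(n : ℤ)) = 1 := by
      rw [h1, ← binomialSeries_add, add_neg_cancel, binomialSeries_zero]
    calc (qinv : PowerSeries ℤ) ^ n = qinv ^ n * (q ^ n * binomialSeries ℤ (-(n : ℤ))) := by
          rw [e2, mul_one]
      _ = (q ^ n * qinv ^ n) * binomialSeries ℤ (-(n : ℤ)) := by ring
      _ = _ := by rw [e1, one_mul]
  unfold qz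
  split_ifs with h
  · rw [h1, Int.toNat_of_nonneg h]
  · rw [h2, Int.toNat_of_nonneg (by omega), neg_neg]

theorem qz_add (x y : ℤ) : qz (x + y) = qz x * qz y := by
  rw [qz_eq, qz_eq, qz_eq, binomialSeries_add]

theorem qz_zero : qz 0 = 1 := by rw [qz_eq, binomialSeries_zero]

theorem qz_nat_pow (n : ℕ) : qz (n : ℤ) = q ^ n := by
  unfold qz
  rw [if_pos (Int.natCast_nonneg n), Int.toNat_natCast]

theorem qz_neg_nat_pow (n : ℕ) : qz (-(n : ℤ)) = qinv ^ n := by
  rw [← one_mul (qz _), ← one_pow n, ← q_qinv, mul_pow, mul_comm (q ^ n), mul_assoc,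
    ← qz_nat_pow, ← qz_add, add_neg_cancel, qz_zero, mul_one]

theorem PD_qz {e : ℕ} {z : ℤ → ℤ} (p : Polynomial ℚ) (hp : ∀ m : ℤ, (z m : ℚ) = p.eval (m : ℚ))
    (he : p.natDegree ≤ e) (j : ℕ) : PD (e * j) (fun m => ((coeff j (qz (z m)) : ℤ) : ℚ)) := by
  refine ⟨Polynomial.C ((j.factorial : ℚ)⁻¹) *
    ((descPochhammer ℤ j).map (Int.castRingHom ℚ)).comp p, fun m => ?_, Or.inr ?_⟩
  · beta_reduce
    have hc : ((Ring.choose (z m) j : ℤ) : ℚ) = Ring.choose ((z m : ℤ) : ℚ) j :=
      Ring.map_choose (Int.castRingHom ℚ) (z m) j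
    rw [qz_eq, binomialSeries_coeff, smul_eq_mul, mul_one, hc,
      Ring.choose_eq_smul, Polynomial.eval_mul, Polynomial.eval_C, Polynomial.eval_comp, ← hp,
      smul_eq_mul, ← Polynomial.aeval_eq_smeval, Polynomial.aeval_def, Polynomial.eval_map]
    rfl
  · have h1 : (Polynomial.C ((j.factorial : ℚ)⁻¹) *
        ((descPochhammer ℤ j).map (Int.castRingHom ℚ)).comp p).natDegree ≤ j * e := by
      refine (Polynomial.natDegree_C_mul_le _ _).trans ?_
      rw [Polynomial.natDegree_comp]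
      refine Nat.mul_le_mul ?_ he
      refine (Polynomial.natDegree_map_le).trans ?_
      rw [descPochhammer_natDegree]
    have h2 : ((Polynomial.C ((j.factorial : ℚ)⁻¹) *
        ((descPochhammer ℤ j).map (Int.castRingHom ℚ)).comp p).natDegree : ℤ) ≤ (j : ℤ) * e := by
      exact_mod_cast h1
    linarith

theorem PD_qz_lin (x y : ℤ) (j : ℕ) : PD j (fun m => ((coeff j (qz (x * m + y)) : ℤ) : ℚ)) := by
  have := PD_qz (e := 1) (z := fun m => x * m + y)
    (Polynomial.C (x : ℚ) * Polynomial.X + Polynomial.C (y : ℚ)) (fun m => by simp)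
    (Polynomial.natDegree_linear_le) j
  simpa using this

theorem W_qz_lin (x y : ℤ) : W 0 (fun m => qz (x * m + y)) :=
  fun j => (PD_qz_lin x y j).mono (by omega)

theorem W_qz_quad (t : ℤ) : W 0 (fun m => qz (t * (m * (m + 1)))) := by
  intro j
  have := PD_qz (e := 2) (z := fun m => t * (m * (m + 1)))
    (Polynomial.C (t : ℚ) * Polynomial.X ^ 2 + Polynomial.C (t : ℚ) * Polynomial.X
      + Polynomial.C 0) (fun m => by simp; ring)
    (Polynomial.natDegree_quadratic_le) j
  exact this.mono (by push_cast; omega)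

/-! ### the extension of the coloured Jones polynomial to all integers -/

/-- `[2 m + 1] = (q ^ (m + 1) - q ^ (-m)) / h` -/
noncomputable def brZ (m : ℤ) : PowerSeries ℤ :=
  PowerSeries.mk fun j => coeff (j + 1) (qz (m + 1) - qz (-m))

theorem X_mul_brZ (m : ℤ) : X * brZ m = qz (m + 1) - qz (-m) := by
  ext n
  rcases n with _ | n
  · rw [coeff_zero_X_mul, map_sub, qz_eq, qz_eq]
    simp
  · rw [coeff_succ_X_mul, brZ, coeff_mk]

theorem brZ_eq (m : ℕ) : brZ m = qinv ^ m * ∑ i ∈ range (2 * m + 1), q ^ i := by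
  have hX : (X : PowerSeries ℤ) ≠ 0 := X_ne_zero
  refine mul_left_cancel₀ hX ?_
  have hq : (X : PowerSeries ℤ) = q - 1 := by unfold q; ring
  have h1 : (∑ i ∈ range (2 * m + 1), q ^ i) * (q - 1) = q ^ (2 * m + 1) - 1 := geom_sum_mul _ _
  rw [X_mul_brZ]
  calc qz ((m : ℤ) + 1) - qz (-(m : ℤ)) = q ^ (m + 1) - qinv ^ m := by
        rw [qz_neg_nat_pow, ← qz_nat_pow]
        push_cast
        rfl
    _ = (q ^ m * qinv ^ m) * q ^ (m + 1) - qinv ^ m := by
        rw [← mul_pow, q_qinv, one_pow, one_mul]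
    _ = qinv ^ m * (q ^ (2 * m + 1) - 1) := by ring
    _ = qinv ^ m * ((∑ i ∈ range (2 * m + 1), q ^ i) * (q - 1)) := by rw [h1]
    _ = (q - 1) * (qinv ^ m * ∑ i ∈ range (2 * m + 1), q ^ i) := by ring
    _ = X * (qinv ^ m * ∑ i ∈ range (2 * m + 1), q ^ i) := by rw [hq]

theorem W_brZ : W 1 brZ := by
  intro j
  have h1 := PD_qz_lin 1 1 (j + 1)
  have h2 := PD_qz_lin (-1) 0 (j + 1)
  refine ((h1.sub h2).mono (by push_cast; linarith)).congr fun m => ?_
  rw [brZ, coeff_mk, map_sub, Int.cast_sub]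
  congr 3 <;> ring_nf

theorem brZ_neg (m : ℤ) : brZ (-m - 1) = - brZ m := by
  ext j
  rw [map_neg, brZ, brZ, coeff_mk, coeff_mk, map_sub, map_sub]
  have e1 : -m - 1 + 1 = -m := by ring
  have e2 : -(-m - 1) = m + 1 := by ring
  rw [e1, e2]
  ring

/-- `∏ l ≤ k, (q ^ N + q ^ (-N) - q ^ l - q ^ (-l))` -/
noncomputable def fac (N : ℤ) (k : ℕ) : PowerSeries ℤ :=
  ∏ l ∈ Icc 1 k, (qz N + qz (-N) - q ^ l - qinv ^ l)

theorem W_fac (k : ℕ) : W 0 (fun m => fac (2 * m + 1) k) := by
  unfold fac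
  refine W.prod fun l _ => ?_
  have h1 := W_qz_lin 2 1
  have h2 : W 0 (fun m => qz (-(2 * m + 1))) := by
    refine (W_qz_lin (-2) (-1)).congr fun m => ?_
    congr 1
    ring
  exact ((h1.add h2).sub (W.const _)).sub (W.const _)

theorem fac_neg (N : ℤ) (k : ℕ) : fac (-N) k = fac N k := by
  unfold fac
  refine prod_congr rfl fun l _ => ?_
  rw [neg_neg, add_comm (qz (-N))]

theorem X_pow_dvd_fac (N : ℤ) (k : ℕ) : (X : PowerSeries ℤ) ^ k ∣ fac N k := by
  have h : ∏ _l ∈ Icc 1 k, (X : PowerSeries ℤ) ∣ fac N k := by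
    unfold fac
    refine prod_dvd_prod_of_dvd _ _ fun l _ => ?_
    rw [X_dvd_iff, qz_eq, qz_eq, ← qz_nat_pow, ← qz_neg_nat_pow, qz_eq, qz_eq]
    simp
  simpa using h

theorem fac_eq_zero (m k : ℕ) (hk : 2 * m + 1 ≤ k) : fac (2 * (m : ℤ) + 1) k = 0 := by
  unfold fac
  refine prod_eq_zero (i := 2 * m + 1) (mem_Icc.2 ⟨by omega, hk⟩) ?_
  rw [← qz_nat_pow, ← qz_neg_nat_pow]
  push_cast
  ring

/-- the coloured Jones polynomial for all integers -/
noncomputable def jonesZ (a : ℕ → PowerSeries ℤ) (m : ℤ) : PowerSeries ℤ :=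
  PowerSeries.mk fun j => ∑ k ∈ range (j + 1), coeff j (a k * fac (2 * m + 1) k)

theorem W_jonesZ (a : ℕ → PowerSeries ℤ) : W 0 (jonesZ a) := by
  intro j
  have h : PD (2 * j + 0) (fun m => ∑ k ∈ range (j + 1),
      ((coeff j (a k * fac (2 * m + 1) k) : ℤ) : ℚ)) := by
    refine PD.sum fun k _ => ?_
    have := ((W.const (a k)).mul (W_fac k)) j
    simpa using this
  refine h.congr fun m => ?_
  rw [jonesZ, coeff_mk]
  push_cast
  rfl

theorem jonesZ_neg (a : ℕ → PowerSeries ℤ) (m : ℤ) : jonesZ a (-m - 1) = jonesZ a m := by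
  unfold jonesZ
  have e : 2 * (-m - 1) + 1 = -(2 * m + 1) := by ring
  rw [e]
  simp only [fac_neg]

theorem jones_eq_jonesZ (a : ℕ → PowerSeries ℤ) (m : ℕ) : jones a m = jonesZ a m := by
  ext j
  have h0 : jones a m = ∑ k ∈ range (2 * m + 1), a k * fac (2 * (m : ℤ) + 1) k := by
    unfold jones fac
    refine sum_congr rfl fun k _ => ?_
    congr 1
  rw [h0, map_sum, jonesZ, coeff_mk]
  have h1 : ∑ k ∈ range (2 * m + 1), coeff j (a k * fac (2 * (m : ℤ) + 1) k) =
      ∑ k ∈ range (2 * m + 1 + (j + 1)), coeff j (a k * fac (2 * (m : ℤ) + 1) k) := by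
    refine sum_subset (range_subset_range.2 (by omega)) fun k _ hk => ?_
    rw [mem_range, not_lt] at hk
    rw [fac_eq_zero m k hk, mul_zero, map_zero]
  have h2 : ∑ k ∈ range (j + 1), coeff j (a k * fac (2 * (m : ℤ) + 1) k) =
      ∑ k ∈ range (2 * m + 1 + (j + 1)), coeff j (a k * fac (2 * (m : ℤ) + 1) k) := by
    refine sum_subset (range_subset_range.2 (by omega)) fun k _ hk => ?_
    rw [mem_range, not_lt] at hk
    have : (X : PowerSeries ℤ) ^ k ∣ a k * fac (2 * (m : ℤ) + 1) k :=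
      dvd_mul_of_dvd_right (X_pow_dvd_fac _ _) _
    exact X_pow_dvd_iff.1 this j (by omega)
  rw [h1, h2]

/-! ### the value of the framed knot -/

/-- the value of the framed knot for all integers -/
noncomputable def framedZ (a : ℕ → PowerSeries ℤ) (t m : ℤ) : PowerSeries ℤ :=
  qz (t * (m * (m + 1))) * brZ m * jonesZ a m

theorem framed_eq (a : ℕ → PowerSeries ℤ) (t : ℤ) (m : ℕ) : framed a t m = framedZ a t m := by
  unfold framed framedZ
  rw [jones_eq_jonesZ, brZ_eq]

theorem W_framedZ (a : ℕ → PowerSeries ℤ) (t : ℤ) : W 1 (framedZ a t) := by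
  have := ((W_qz_quad t).mul W_brZ).mul (W_jonesZ a)
  exact (this.mono (by norm_num)).congr fun m => rfl

theorem framedZ_neg (a : ℕ → PowerSeries ℤ) (t m : ℤ) : framedZ a t (-m - 1) = - framedZ a t m := by
  unfold framedZ
  rw [brZ_neg, jonesZ_neg]
  have e : t * ((-m - 1) * (-m - 1 + 1)) = t * (m * (m + 1)) := by ring
  rw [e]
  ring

/-- the recursion on all integers -/
noncomputable def colZ (F : ℤ → PowerSeries ℤ) : ℕ → ℤ → PowerSeries ℤ
  | 0, m => F m
  | n + 1, m => colZ F n (m + 1) + colZ F n m + colZ F n (m - 1) -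
      (q ^ (n + 1) + 1 + qinv ^ (n + 1)) * colZ F n m

theorem colZ_neg {F : ℤ → PowerSeries ℤ} (hF : ∀ m, F (-m - 1) = - F m) (n : ℕ) :
    ∀ m, colZ F n (-m - 1) = - colZ F n m := by
  induction n with
  | zero => exact hF
  | succ n ih =>
    intro m
    have e1 : -m - 1 + 1 = -(m - 1) - 1 := by ring
    have e2 : -m - 1 - 1 = -(m + 1) - 1 := by ring
    simp only [colZ]
    rw [e1, e2, ih, ih, ih]
    ring

theorem colS_eq {F : ℕ → PowerSeries ℤ} {G : ℤ → PowerSeries ℤ} (hFG : ∀ m : ℕ, F m = G m)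
    (hG : ∀ m, G (-m - 1) = - G m) (n : ℕ) : ∀ m : ℕ, colS F n m = colZ G n m := by
  induction n with
  | zero => exact hFG
  | succ n ih =>
    intro m
    simp only [colS, colZ]
    split_ifs with hm
    · subst hm
      have h := colZ_neg hG n 0
      rw [ih, ih]
      have e : (-0 - 1 : ℤ) = ((0 : ℕ) : ℤ) - 1 := by norm_num
      rw [e] at h
      rw [h]
      push_cast
      simp
    · obtain ⟨k, rfl⟩ := Nat.exists_eq_succ_of_ne_zero hm
      rw [ih, ih, ih]
      push_cast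
      simp

theorem X_sq_dvd (l : ℕ) : ∃ g : PowerSeries ℤ, q ^ l + qinv ^ l - 2 = X ^ 2 * g := by
  have h1 : (X : PowerSeries ℤ) ∣ q ^ l - 1 := by
    rw [X_dvd_iff, ← qz_nat_pow, qz_eq]
    simp
  obtain ⟨r, hr⟩ := h1
  refine ⟨qinv ^ l * r ^ 2, ?_⟩
  have h2 : (q : PowerSeries ℤ) ^ l * qinv ^ l = 1 := by rw [← mul_pow, q_qinv, one_pow]
  have h3 : (X : PowerSeries ℤ) ^ 2 * (qinv ^ l * r ^ 2) = qinv ^ l * (q ^ l - 1) ^ 2 := by
    rw [hr]; ring
  rw [h3]
  linear_combination (2 - (q : PowerSeries ℤ) ^ l) * h2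

theorem W_colZ {c : ℤ} {F : ℤ → PowerSeries ℤ} (hF : W c F) (n : ℕ) :
    W (c - 2 * n) (colZ F n) := by
  induction n with
  | zero => exact (hF.mono (by simp)).congr fun m => rfl
  | succ n ih =>
    obtain ⟨g, hg⟩ := X_sq_dvd (n + 1)
    have h1 : W (c - 2 * n - 2) (fun m => X ^ 2 * (g * colZ F n m)) := by
      have := ((W.const g).mul ih).sq_mul
      simpa using this
    have h2 : W (c - 2 * n - 2)
        (fun m => colZ F n (m + 1) + colZ F n (m - 1) - 2 * colZ F n m) := by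
      intro j
      refine ((ih j).diff2.mono (by linarith)).congr fun m => ?_
      have e : (2 : PowerSeries ℤ) * colZ F n m = colZ F n m + colZ F n m := by ring
      beta_reduce
      rw [e, map_sub, map_add, map_add]
      push_cast
      ring
    refine ((h2.sub h1).mono (by push_cast; linarith)).congr fun m => ?_
    simp only [colZ]
    rw [← mul_assoc, ← hg]
    ring

theorem X_pow_dvd_colS (a : ℕ → PowerSeries ℤ) (t : ℤ) (n : ℕ) :
    (X : PowerSeries ℤ) ^ n ∣ colS (framed a t) n 0 := by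
  rw [X_pow_dvd_iff]
  intro j hj
  rw [colS_eq (framed_eq a t) (framedZ_neg a t) n 0]
  have h := (W_colZ (W_framedZ a t) n) j
  have := h.eq_zero (by omega) ((0 : ℕ) : ℤ)
  exact_mod_cast this

/-- **the `n`-th term is divisible by `h ^ n`** -/
theorem X_pow_dvd_doubleTerm (a : ℕ → PowerSeries ℤ) (t b c : ℤ) (n : ℕ) :
    (X : PowerSeries ℤ) ^ n ∣ doubleTerm a t b c n :=
  dvd_mul_of_dvd_right (X_pow_dvd_colS a t n) _

end Pool.Agent.Zk52.LMO
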