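import Pool.Agent.Zk52.LMO.Defs

set_option autoImplicit false

/-! Power series modulo the fourth power of the variable. -/

namespace Pool.Agent.Zk52.LMO

open PowerSeries Finset

/-- the first four coefficients of `f` -/
def R (f : PowerSeries ℤ) (x0 x1 x2 x3 : ℤ) : Prop :=
  coeff 0 f = x0 ∧ coeff 1 f = x1 ∧ coeff 2 f = x2 ∧ coeff 3 f = x3

theorem R.mul {f g : PowerSeries ℤ} {x0 x1 x2 x3 y0 y1 y2 y3 : ℤ} (hf : R f x0 x1 x2 x3)
    (hg : R g y0 y1 y2 y3) :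
    R (f * g) (x0 * y0) (x0 * y1 + x1 * y0) (x0 * y2 + x1 * y1 + x2 * y0)
      (x0 * y3 + x1 * y2 + x2 * y1 + x3 * y0) := by
  obtain ⟨a0, a1, a2, a3⟩ := hf
  obtain ⟨b0, b1, b2, b3⟩ := hg
  refine ⟨?_, ?_, ?_, ?_⟩
  · rw [coeff_mul, Finset.Nat.sum_antidiagonal_eq_sum_range_succ_mk]
    simp only [sum_range_succ, range_zero, sum_empty, Nat.sub_zero, a0, b0]
    ring
  · rw [coeff_mul, Finset.Nat.sum_antidiagonal_eq_sum_range_succ_mk]
    simp only [sum_range_succ, range_zero, sum_empty, Nat.sub_zero, Nat.sub_self, a0, b0, a1, b1]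
    ring
  · rw [coeff_mul, Finset.Nat.sum_antidiagonal_eq_sum_range_succ_mk]
    simp only [sum_range_succ, range_zero, sum_empty, Nat.sub_zero, Nat.sub_self,
      Nat.reduceSub, a0, b0, a1, b1, a2, b2]
    ring
  · rw [coeff_mul, Finset.Nat.sum_antidiagonal_eq_sum_range_succ_mk]
    simp only [sum_range_succ, range_zero, sum_empty, Nat.sub_zero, Nat.sub_self,
      Nat.reduceSub, a0, b0, a1, b1, a2, b2, a3, b3]
    ring

theorem R.add {f g : PowerSeries ℤ} {x0 x1 x2 x3 y0 y1 y2 y3 : ℤ} (hf : R f x0 x1 x2 x3)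
    (hg : R g y0 y1 y2 y3) : R (f + g) (x0 + y0) (x1 + y1) (x2 + y2) (x3 + y3) := by
  obtain ⟨a0, a1, a2, a3⟩ := hf
  obtain ⟨b0, b1, b2, b3⟩ := hg
  exact ⟨by rw [map_add, a0, b0], by rw [map_add, a1, b1], by rw [map_add, a2, b2],
    by rw [map_add, a3, b3]⟩

theorem R.sub {f g : PowerSeries ℤ} {x0 x1 x2 x3 y0 y1 y2 y3 : ℤ} (hf : R f x0 x1 x2 x3)
    (hg : R g y0 y1 y2 y3) : R (f - g) (x0 - y0) (x1 - y1) (x2 - y2) (x3 - y3) := by
  obtain ⟨a0, a1, a2, a3⟩ := hf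
  obtain ⟨b0, b1, b2, b3⟩ := hg
  exact ⟨by rw [map_sub, a0, b0], by rw [map_sub, a1, b1], by rw [map_sub, a2, b2],
    by rw [map_sub, a3, b3]⟩

theorem R.neg {f : PowerSeries ℤ} {x0 x1 x2 x3 : ℤ} (hf : R f x0 x1 x2 x3) :
    R (-f) (-x0) (-x1) (-x2) (-x3) := by
  obtain ⟨a0, a1, a2, a3⟩ := hf
  exact ⟨by rw [map_neg, a0], by rw [map_neg, a1], by rw [map_neg, a2], by rw [map_neg, a3]⟩

theorem R.of_eq {f : PowerSeries ℤ} {x0 x1 x2 x3 y0 y1 y2 y3 : ℤ} (hf : R f x0 x1 x2 x3)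
    (h0 : x0 = y0) (h1 : x1 = y1) (h2 : x2 = y2) (h3 : x3 = y3) : R f y0 y1 y2 y3 := by
  subst h0 h1 h2 h3
  exact hf

theorem R_one : R 1 1 0 0 0 := by
  refine ⟨?_, ?_, ?_, ?_⟩ <;> simp [coeff_one]

theorem R_zero : R 0 0 0 0 0 := by
  refine ⟨?_, ?_, ?_, ?_⟩ <;> simp

theorem R_q : R q 1 1 0 0 := by
  unfold q
  refine ⟨?_, ?_, ?_, ?_⟩ <;> simp [coeff_one, coeff_X]

theorem R_qinv : R qinv 1 (-1) 1 (-1) := by
  unfold qinv
  refine ⟨?_, ?_, ?_, ?_⟩ <;> simp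

/-- the binomial coefficients of `q ^ n` -/
theorem R_qpow (n : ℕ) : ∃ x2 x3 : ℤ, R (q ^ n) 1 n x2 x3 ∧ 2 * x2 = n * (n - 1) ∧
    6 * x3 = n * (n - 1) * (n - 2) := by
  induction n with
  | zero => exact ⟨0, 0, by simpa using R_one, by simp, by simp⟩
  | succ n ih =>
    obtain ⟨x2, x3, h, h2, h3⟩ := ih
    refine ⟨x2 + n, x3 + x2, ?_, ?_, ?_⟩
    · rw [pow_succ]
      refine (h.mul R_q).of_eq (by ring) (by push_cast; ring) (by ring) (by ring)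
    · push_cast; linarith
    · push_cast; linarith

end Pool.Agent.Zk52.LMO
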