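import Pool.Agent.Zk52.LMO.Calc8

set_option autoImplicit false
set_option linter.unusedSimpArgs false

/-! Power series modulo the fifth power of the variable. -/

namespace Pool.Agent.Zk52.LMO

open PowerSeries Finset

/-- the first five coefficients of `f`, as rational numbers -/
def R5 (f : PowerSeries ℤ) (x0 x1 x2 x3 x4 : ℚ) : Prop :=
  ((coeff 0 f : ℤ) : ℚ) = x0 ∧
  ((coeff 1 f : ℤ) : ℚ) = x1 ∧
  ((coeff 2 f : ℤ) : ℚ) = x2 ∧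
  ((coeff 3 f : ℤ) : ℚ) = x3 ∧
  ((coeff 4 f : ℤ) : ℚ) = x4

theorem R5.mul {f g : PowerSeries ℤ} {x0 x1 x2 x3 x4 y0 y1 y2 y3 y4 : ℚ}
    (hf : R5 f x0 x1 x2 x3 x4) (hg : R5 g y0 y1 y2 y3 y4) :
    R5 (f * g) (x0 * y0)
      (x0 * y1 + x1 * y0)
      (x0 * y2 + x1 * y1 + x2 * y0)
      (x0 * y3 + x1 * y2 + x2 * y1 + x3 * y0)
      (x0 * y4 + x1 * y3 + x2 * y2 + x3 * y1 + x4 * y0) := by
  obtain ⟨a0, a1, a2, a3, a4⟩ := hf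
  obtain ⟨b0, b1, b2, b3, b4⟩ := hg
  refine ⟨?_, ?_, ?_, ?_, ?_⟩ <;>
  · rw [coeff_mul, Finset.Nat.sum_antidiagonal_eq_sum_range_succ_mk]
    simp only [sum_range_succ, range_zero, sum_empty, Nat.sub_zero, Nat.sub_self, Nat.reduceSub,
      Int.cast_add, Int.cast_mul, zero_add,
      a0, a1, a2, a3, a4, b0, b1, b2, b3, b4]

theorem R5.add {f g : PowerSeries ℤ} {x0 x1 x2 x3 x4 y0 y1 y2 y3 y4 : ℚ}
    (hf : R5 f x0 x1 x2 x3 x4) (hg : R5 g y0 y1 y2 y3 y4) :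
    R5 (f + g) (x0 + y0) (x1 + y1) (x2 + y2) (x3 + y3) (x4 + y4) := by
  obtain ⟨a0, a1, a2, a3, a4⟩ := hf
  obtain ⟨b0, b1, b2, b3, b4⟩ := hg
  exact ⟨by rw [map_add, Int.cast_add, a0, b0], by rw [map_add, Int.cast_add, a1, b1], by rw [map_add, Int.cast_add, a2, b2], by rw [map_add, Int.cast_add, a3, b3], by rw [map_add, Int.cast_add, a4, b4]⟩

theorem R5.sub {f g : PowerSeries ℤ} {x0 x1 x2 x3 x4 y0 y1 y2 y3 y4 : ℚ}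
    (hf : R5 f x0 x1 x2 x3 x4) (hg : R5 g y0 y1 y2 y3 y4) :
    R5 (f - g) (x0 - y0) (x1 - y1) (x2 - y2) (x3 - y3) (x4 - y4) := by
  obtain ⟨a0, a1, a2, a3, a4⟩ := hf
  obtain ⟨b0, b1, b2, b3, b4⟩ := hg
  exact ⟨by rw [map_sub, Int.cast_sub, a0, b0], by rw [map_sub, Int.cast_sub, a1, b1], by rw [map_sub, Int.cast_sub, a2, b2], by rw [map_sub, Int.cast_sub, a3, b3], by rw [map_sub, Int.cast_sub, a4, b4]⟩

theorem R5.neg {f : PowerSeries ℤ} {x0 x1 x2 x3 x4 : ℚ}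
    (hf : R5 f x0 x1 x2 x3 x4) : R5 (-f) (-x0) (-x1) (-x2) (-x3) (-x4) := by
  obtain ⟨a0, a1, a2, a3, a4⟩ := hf
  exact ⟨by rw [map_neg, Int.cast_neg, a0], by rw [map_neg, Int.cast_neg, a1], by rw [map_neg, Int.cast_neg, a2], by rw [map_neg, Int.cast_neg, a3], by rw [map_neg, Int.cast_neg, a4]⟩

theorem R5.of_eq {f : PowerSeries ℤ} {x0 x1 x2 x3 x4 y0 y1 y2 y3 y4 : ℚ}
    (hf : R5 f x0 x1 x2 x3 x4) (h0 : x0 = y0) (h1 : x1 = y1) (h2 : x2 = y2) (h3 : x3 = y3) (h4 : x4 = y4) :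
    R5 f y0 y1 y2 y3 y4 := by
  subst h0 h1 h2 h3 h4
  exact hf

theorem R5_one : R5 1 1 0 0 0 0 := by
  refine ⟨?_, ?_, ?_, ?_, ?_⟩ <;> simp [coeff_one]

theorem R5_zero : R5 0 0 0 0 0 0 := by
  refine ⟨?_, ?_, ?_, ?_, ?_⟩ <;> simp

theorem R5_q : R5 q 1 1 0 0 0 := by
  unfold q
  refine ⟨?_, ?_, ?_, ?_, ?_⟩ <;> simp [coeff_one, coeff_X]

theorem R5_qinv : R5 qinv 1 (-1) 1 (-1) 1 := by
  unfold qinv
  refine ⟨?_, ?_, ?_, ?_, ?_⟩ <;> norm_num [coeff_mk]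

theorem R5_any (f : PowerSeries ℤ) : ∃ x0 x1 x2 x3 x4 : ℚ, R5 f x0 x1 x2 x3 x4 :=
  ⟨_, _, _, _, _, rfl, rfl, rfl, rfl, rfl⟩

theorem R5_qp (k : ℕ) : R5 (q ^ k) 1
    (k : ℚ)
    ((k : ℚ) * (k - 1) / 2)
    ((k : ℚ) * (k - 1) * (k - 2) / 6)
    ((k : ℚ) * (k - 1) * (k - 2) * (k - 3) / 24) := by
  induction k with
  | zero =>
    rw [pow_zero]
    refine R5_one.of_eq ?_ ?_ ?_ ?_ ?_ <;> norm_num
  | succ k ih =>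
    rw [pow_succ]
    refine (ih.mul R5_q).of_eq ?_ ?_ ?_ ?_ ?_ <;> push_cast <;> ring

theorem R5_qip (k : ℕ) : R5 (qinv ^ k) 1
    (-(k : ℚ))
    (((k : ℚ) * (k + 1)) / 2)
    (-((k : ℚ) * (k + 1) * (k + 2)) / 6)
    (((k : ℚ) * (k + 1) * (k + 2) * (k + 3)) / 24) := by
  induction k with
  | zero =>
    rw [pow_zero]
    refine R5_one.of_eq ?_ ?_ ?_ ?_ ?_ <;> norm_num
  | succ k ih =>
    rw [pow_succ]
    refine (ih.mul R5_qinv).of_eq ?_ ?_ ?_ ?_ ?_ <;> push_cast <;> ring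

theorem R8.to5 {f : PowerSeries ℤ} {x0 x1 x2 x3 x4 x5 x6 x7 : ℚ} (h : R8 f x0 x1 x2 x3 x4 x5 x6 x7) :
    R5 f x0 x1 x2 x3 x4 :=
  ⟨h.1, h.2.1, h.2.2.1, h.2.2.2.1, h.2.2.2.2.1⟩

theorem R5_of_dvd {f : PowerSeries ℤ} (h : (X : PowerSeries ℤ) ^ 5 ∣ f) : R5 f 0 0 0 0 0 := by
  have h' := X_pow_dvd_iff.1 h
  refine ⟨?_, ?_, ?_, ?_, ?_⟩
  · rw [h' 0 (by norm_num)]; simp
  · rw [h' 1 (by norm_num)]; simp
  · rw [h' 2 (by norm_num)]; simp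
  · rw [h' 3 (by norm_num)]; simp
  · rw [h' 4 (by norm_num)]; simp

end Pool.Agent.Zk52.LMO
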