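import Pool.Agent.Zk52.LMO.Twist

set_option autoImplicit false
set_option linter.unusedSimpArgs false

/-! Power series modulo the eighth power of the variable. -/

namespace Pool.Agent.Zk52.LMO

open PowerSeries Finset

/-- the first eight coefficients of `f`, as rational numbers -/
def R8 (f : PowerSeries ℤ) (x0 x1 x2 x3 x4 x5 x6 x7 : ℚ) : Prop :=
  ((coeff 0 f : ℤ) : ℚ) = x0 ∧
  ((coeff 1 f : ℤ) : ℚ) = x1 ∧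
  ((coeff 2 f : ℤ) : ℚ) = x2 ∧
  ((coeff 3 f : ℤ) : ℚ) = x3 ∧
  ((coeff 4 f : ℤ) : ℚ) = x4 ∧
  ((coeff 5 f : ℤ) : ℚ) = x5 ∧
  ((coeff 6 f : ℤ) : ℚ) = x6 ∧
  ((coeff 7 f : ℤ) : ℚ) = x7

theorem R8.mul {f g : PowerSeries ℤ} {x0 x1 x2 x3 x4 x5 x6 x7 y0 y1 y2 y3 y4 y5 y6 y7 : ℚ}
    (hf : R8 f x0 x1 x2 x3 x4 x5 x6 x7) (hg : R8 g y0 y1 y2 y3 y4 y5 y6 y7) :
    R8 (f * g) (x0 * y0)
      (x0 * y1 + x1 * y0)
      (x0 * y2 + x1 * y1 + x2 * y0)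
      (x0 * y3 + x1 * y2 + x2 * y1 + x3 * y0)
      (x0 * y4 + x1 * y3 + x2 * y2 + x3 * y1 + x4 * y0)
      (x0 * y5 + x1 * y4 + x2 * y3 + x3 * y2 + x4 * y1 + x5 * y0)
      (x0 * y6 + x1 * y5 + x2 * y4 + x3 * y3 + x4 * y2 + x5 * y1 + x6 * y0)
      (x0 * y7 + x1 * y6 + x2 * y5 + x3 * y4 + x4 * y3 + x5 * y2 + x6 * y1 + x7 * y0) := by
  obtain ⟨a0, a1, a2, a3, a4, a5, a6, a7⟩ := hf
  obtain ⟨b0, b1, b2, b3, b4, b5, b6, b7⟩ := hg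
  refine ⟨?_, ?_, ?_, ?_, ?_, ?_, ?_, ?_⟩ <;>
  · rw [coeff_mul, Finset.Nat.sum_antidiagonal_eq_sum_range_succ_mk]
    simp only [sum_range_succ, range_zero, sum_empty, Nat.sub_zero, Nat.sub_self, Nat.reduceSub,
      Int.cast_add, Int.cast_mul, zero_add,
      a0, a1, a2, a3, a4, a5, a6, a7, b0, b1, b2, b3, b4, b5, b6, b7]

theorem R8.add {f g : PowerSeries ℤ} {x0 x1 x2 x3 x4 x5 x6 x7 y0 y1 y2 y3 y4 y5 y6 y7 : ℚ}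
    (hf : R8 f x0 x1 x2 x3 x4 x5 x6 x7) (hg : R8 g y0 y1 y2 y3 y4 y5 y6 y7) :
    R8 (f + g) (x0 + y0) (x1 + y1) (x2 + y2) (x3 + y3) (x4 + y4) (x5 + y5) (x6 + y6) (x7 + y7) := by
  obtain ⟨a0, a1, a2, a3, a4, a5, a6, a7⟩ := hf
  obtain ⟨b0, b1, b2, b3, b4, b5, b6, b7⟩ := hg
  exact ⟨by rw [map_add, Int.cast_add, a0, b0], by rw [map_add, Int.cast_add, a1, b1], by rw [map_add, Int.cast_add, a2, b2], by rw [map_add, Int.cast_add, a3, b3], by rw [map_add, Int.cast_add, a4, b4], by rw [map_add, Int.cast_add, a5, b5], by rw [map_add, Int.cast_add, a6, b6], by rw [map_add, Int.cast_add, a7, b7]⟩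

theorem R8.sub {f g : PowerSeries ℤ} {x0 x1 x2 x3 x4 x5 x6 x7 y0 y1 y2 y3 y4 y5 y6 y7 : ℚ}
    (hf : R8 f x0 x1 x2 x3 x4 x5 x6 x7) (hg : R8 g y0 y1 y2 y3 y4 y5 y6 y7) :
    R8 (f - g) (x0 - y0) (x1 - y1) (x2 - y2) (x3 - y3) (x4 - y4) (x5 - y5) (x6 - y6) (x7 - y7) := by
  obtain ⟨a0, a1, a2, a3, a4, a5, a6, a7⟩ := hf
  obtain ⟨b0, b1, b2, b3, b4, b5, b6, b7⟩ := hg
  exact ⟨by rw [map_sub, Int.cast_sub, a0, b0], by rw [map_sub, Int.cast_sub, a1, b1], by rw [map_sub, Int.cast_sub, a2, b2], by rw [map_sub, Int.cast_sub, a3, b3], by rw [map_sub, Int.cast_sub, a4, b4], by rw [map_sub, Int.cast_sub, a5, b5], by rw [map_sub, Int.cast_sub, a6, b6], by rw [map_sub, Int.cast_sub, a7, b7]⟩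

theorem R8.neg {f : PowerSeries ℤ} {x0 x1 x2 x3 x4 x5 x6 x7 : ℚ}
    (hf : R8 f x0 x1 x2 x3 x4 x5 x6 x7) : R8 (-f) (-x0) (-x1) (-x2) (-x3) (-x4) (-x5) (-x6) (-x7) := by
  obtain ⟨a0, a1, a2, a3, a4, a5, a6, a7⟩ := hf
  exact ⟨by rw [map_neg, Int.cast_neg, a0], by rw [map_neg, Int.cast_neg, a1], by rw [map_neg, Int.cast_neg, a2], by rw [map_neg, Int.cast_neg, a3], by rw [map_neg, Int.cast_neg, a4], by rw [map_neg, Int.cast_neg, a5], by rw [map_neg, Int.cast_neg, a6], by rw [map_neg, Int.cast_neg, a7]⟩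

theorem R8.of_eq {f : PowerSeries ℤ} {x0 x1 x2 x3 x4 x5 x6 x7 y0 y1 y2 y3 y4 y5 y6 y7 : ℚ}
    (hf : R8 f x0 x1 x2 x3 x4 x5 x6 x7) (h0 : x0 = y0) (h1 : x1 = y1) (h2 : x2 = y2) (h3 : x3 = y3) (h4 : x4 = y4) (h5 : x5 = y5) (h6 : x6 = y6) (h7 : x7 = y7) :
    R8 f y0 y1 y2 y3 y4 y5 y6 y7 := by
  subst h0 h1 h2 h3 h4 h5 h6 h7
  exact hf

theorem R8_one : R8 1 1 0 0 0 0 0 0 0 := by
  refine ⟨?_, ?_, ?_, ?_, ?_, ?_, ?_, ?_⟩ <;> simp [coeff_one]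

theorem R8_zero : R8 0 0 0 0 0 0 0 0 0 := by
  refine ⟨?_, ?_, ?_, ?_, ?_, ?_, ?_, ?_⟩ <;> simp

theorem R8_q : R8 q 1 1 0 0 0 0 0 0 := by
  unfold q
  refine ⟨?_, ?_, ?_, ?_, ?_, ?_, ?_, ?_⟩ <;> simp [coeff_one, coeff_X]

theorem R8_qinv : R8 qinv 1 (-1) 1 (-1) 1 (-1) 1 (-1) := by
  unfold qinv
  refine ⟨?_, ?_, ?_, ?_, ?_, ?_, ?_, ?_⟩ <;> norm_num [coeff_mk]

theorem R8_any (f : PowerSeries ℤ) : ∃ x0 x1 x2 x3 x4 x5 x6 x7 : ℚ, R8 f x0 x1 x2 x3 x4 x5 x6 x7 :=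
  ⟨_, _, _, _, _, _, _, _, rfl, rfl, rfl, rfl, rfl, rfl, rfl, rfl⟩

theorem R8_qp (k : ℕ) : R8 (q ^ k) 1
    (k : ℚ)
    ((k : ℚ) * (k - 1) / 2)
    ((k : ℚ) * (k - 1) * (k - 2) / 6)
    ((k : ℚ) * (k - 1) * (k - 2) * (k - 3) / 24)
    ((k : ℚ) * (k - 1) * (k - 2) * (k - 3) * (k - 4) / 120)
    ((k : ℚ) * (k - 1) * (k - 2) * (k - 3) * (k - 4) * (k - 5) / 720)
    ((k : ℚ) * (k - 1) * (k - 2) * (k - 3) * (k - 4) * (k - 5) * (k - 6) / 5040) := by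
  induction k with
  | zero =>
    rw [pow_zero]
    refine R8_one.of_eq ?_ ?_ ?_ ?_ ?_ ?_ ?_ ?_ <;> norm_num
  | succ k ih =>
    rw [pow_succ]
    refine (ih.mul R8_q).of_eq ?_ ?_ ?_ ?_ ?_ ?_ ?_ ?_ <;> push_cast <;> ring

theorem R8_qip (k : ℕ) : R8 (qinv ^ k) 1
    (-(k : ℚ))
    (((k : ℚ) * (k + 1)) / 2)
    (-((k : ℚ) * (k + 1) * (k + 2)) / 6)
    (((k : ℚ) * (k + 1) * (k + 2) * (k + 3)) / 24)
    (-((k : ℚ) * (k + 1) * (k + 2) * (k + 3) * (k + 4)) / 120)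
    (((k : ℚ) * (k + 1) * (k + 2) * (k + 3) * (k + 4) * (k + 5)) / 720)
    (-((k : ℚ) * (k + 1) * (k + 2) * (k + 3) * (k + 4) * (k + 5) * (k + 6)) / 5040) := by
  induction k with
  | zero =>
    rw [pow_zero]
    refine R8_one.of_eq ?_ ?_ ?_ ?_ ?_ ?_ ?_ ?_ <;> norm_num
  | succ k ih =>
    rw [pow_succ]
    refine (ih.mul R8_qinv).of_eq ?_ ?_ ?_ ?_ ?_ ?_ ?_ ?_ <;> push_cast <;> ring

end Pool.Agent.Zk52.LMO
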