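import Pool.Agent.Zk52.LMO.Twist

set_option autoImplicit false

/-! The first four coefficients of the Ohtsuki series. -/

namespace Pool.Agent.Zk52.LMO

open PowerSeries Finset

theorem X_dvd_one_sub_qpow (k : ℕ) : (X : PowerSeries ℤ) ∣ 1 - q ^ k := by
  rw [X_dvd_iff]
  simp [q]

theorem X_pow_dvd_kernel (n : ℕ) : (X : PowerSeries ℤ) ^ n ∣ kernel n := by
  unfold kernel
  refine Dvd.dvd.mul_left ?_ _
  have h : (X : PowerSeries ℤ) ^ n = ∏ k ∈ Ico (n + 2) (2 * n + 2), (X : PowerSeries ℤ) := by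
    rw [prod_const, Nat.card_Ico]
    congr 1
    omega
  rw [h]
  exact prod_dvd_prod_of_dvd _ _ fun k _ => X_dvd_one_sub_qpow k

theorem X_pow_dvd_term (a b c : ℤ) (n : ℕ) : (X : PowerSeries ℤ) ^ n ∣ term a b c n :=
  Dvd.dvd.mul_left (X_pow_dvd_kernel n) _

theorem R_sub_qp (k : ℕ) {x2 x3 : ℤ} (h2 : 2 * x2 = k * (k - 1))
    (h3 : 6 * x3 = k * (k - 1) * (k - 2)) : R (1 - q ^ k) 0 (-k) (-x2) (-x3) :=
  (R_one.sub (R_qp k h2 h3)).of_eq (by ring) (by ring) (by ring) (by ring)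

theorem R_kernel0 : R (kernel 0) 1 0 0 0 := by
  have e : kernel 0 = 1 := by simp [kernel]
  rw [e]; exact R_one

theorem R_kernel1 : R (kernel 1) 0 (-6) (-9) (-5) := by
  have e : kernel 1 = (1 + q) * (1 - q ^ 3) := by
    simp [kernel, sum_range_succ, prod_Ico_succ_top]
  rw [e]
  exact (R_2.mul (R_sub_qp 3 (x2 := 3) (x3 := 1) (by norm_num) (by norm_num))).of_eq
    (by norm_num) (by norm_num) (by norm_num) (by norm_num)

theorem R_kernel2 : R (kernel 2) 0 0 60 270 := by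
  have e : kernel 2 = (1 + q + q ^ 2) * ((1 - q ^ 4) * (1 - q ^ 5)) := by
    simp [kernel, sum_range_succ, prod_Ico_succ_top]
  rw [e]
  exact (R_3.mul ((R_sub_qp 4 (x2 := 6) (x3 := 4) (by norm_num) (by norm_num)).mul
    (R_sub_qp 5 (x2 := 10) (x3 := 10) (by norm_num) (by norm_num)))).of_eq
    (by norm_num) (by norm_num) (by norm_num) (by norm_num)

theorem R_kernel3 : R (kernel 3) 0 0 0 (-840) := by
  have e : kernel 3 = (1 + q + q ^ 2 + q ^ 3) * ((1 - q ^ 5) * (1 - q ^ 6) * (1 - q ^ 7)) := by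
    simp [kernel, sum_range_succ, prod_Ico_succ_top]
  rw [e]
  exact ((R_3.add (R_qp 3 (x2 := 3) (x3 := 1) (by norm_num) (by norm_num))).mul
    (((R_sub_qp 5 (x2 := 10) (x3 := 10) (by norm_num) (by norm_num)).mul
    (R_sub_qp 6 (x2 := 15) (x3 := 20) (by norm_num) (by norm_num))).mul
    (R_sub_qp 7 (x2 := 21) (x3 := 35) (by norm_num) (by norm_num)))).of_eq
    (by norm_num) (by norm_num) (by norm_num) (by norm_num)

/-- **the first four coefficients** -/
theorem R_ohtsuki (a b c : ℤ) : R (ohtsuki a b c) 1 (-6 * (a * b * c))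
    (60 * (a * b * c) ^ 2 - 6 * (a + b + c) * (a * b * c) + 3 * (a * b * c))
    (-840 * (a * b * c) ^ 3 + 160 * (a + b + c) * (a * b * c) ^ 2 -
      4 * (a + b + c) ^ 2 * (a * b * c) - 60 * (a * b * c) ^ 2 -
      8 * (a * b + b * c + c * a) * (a * b * c) + 6 * (a + b + c) * (a * b * c) -
      2 * (a * b * c)) := by
  -- the terms
  obtain ⟨a2, a3, ha, ha2⟩ := twist_one a
  obtain ⟨b2, b3, hb, hb2⟩ := twist_one b
  obtain ⟨c2, c3, hc, hc2⟩ := twist_one c
  obtain ⟨A1, A2, A3, hA, hA1⟩ := twist_two a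
  obtain ⟨B1, B2, B3, hB, hB1⟩ := twist_two b
  obtain ⟨C1, C2, C3, hC, hC1⟩ := twist_two c
  obtain ⟨U1, U2, U3, hU⟩ := twist_three a
  obtain ⟨V1, V2, V3, hV⟩ := twist_three b
  obtain ⟨W1, W2, W3, hW⟩ := twist_three c
  have t0 : R (term a b c 0) 1 0 0 0 := by
    unfold term
    rw [twist_zero, twist_zero, twist_zero, pow_zero, one_mul, one_mul, one_mul, one_mul]
    exact R_kernel0
  have t1 : R (term a b c 1) _ _ _ _ :=
    (((((R_qp 1 (x2 := 0) (x3 := 0) (by norm_num) (by norm_num)).mul ha).mul hb).mul hc).mul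
      R_kernel1)
  have t2 : R (term a b c 2) _ _ _ _ :=
    (((((R_qp 2 (x2 := 1) (x3 := 0) (by norm_num) (by norm_num)).mul hA).mul hB).mul hC).mul
      R_kernel2)
  have t3 : R (term a b c 3) _ _ _ _ :=
    (((((R_qp 3 (x2 := 3) (x3 := 1) (by norm_num) (by norm_num)).mul hU).mul hV).mul hW).mul
      R_kernel3)
  obtain ⟨p0, p1, p2, p3⟩ := t0
  obtain ⟨q0, q1, q2, q3⟩ := t1
  obtain ⟨r0, r1, r2, r3⟩ := t2
  obtain ⟨s0, s1, s2, s3⟩ := t3
  refine ⟨?_, ?_, ?_, ?_⟩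
  · rw [ohtsuki, coeff_mk]
    simp only [sum_range_succ, range_zero, sum_empty, p0]
    ring
  · rw [ohtsuki, coeff_mk]
    simp only [sum_range_succ, range_zero, sum_empty, p1, q1]
    push_cast
    ring
  · rw [ohtsuki, coeff_mk]
    simp only [sum_range_succ, range_zero, sum_empty, p2, q2, r2]
    push_cast
    ring
  · rw [ohtsuki, coeff_mk]
    simp only [sum_range_succ, range_zero, sum_empty, p3, q3, r3, s3]
    push_cast
    linear_combination (-b * c) * ha2 + (-a * c) * hb2 + (-a * b) * hc2 +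
      (10 * b ^ 2 * c ^ 2) * hA1 + (10 * a ^ 2 * c ^ 2) * hB1 + (10 * a ^ 2 * b ^ 2) * hC1

end Pool.Agent.Zk52.LMO
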