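import Mathlib

set_option autoImplicit false

/-!
# The Ohtsuki series of the homology spheres obtained by surgery on the Borromean rings

`M(a, b, c)` is the integral homology sphere obtained by Dehn surgery on the Borromean rings with the
coefficients `-1 / a`, `-1 / b`, `-1 / c`, where `a`, `b`, `c` are integers (`a = 0` is the trivial
surgery on a component, so `M(0, b, c)` is the 3-sphere). These are all integral homology spheres
obtained by Dehn surgery on the Borromean rings. Since the surgeries on two components give the double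
twist knots, `M(a, b, c)` is also the result of the surgery with coefficient `-1 / c` on the double
twist knot `K(a, b)`; the nontrivial ones of these knots are the two-bridge knots of genus one
(`K(1, 1)` is the trefoil, `K(1, -1)` the figure eight knot, `K(a, 1)`, `K(a, -1)` are the twist knots).

Habiro's formula for the unified Witten-Reshetikhin-Turaev invariant, the cyclotomic expansion of the
coloured Jones polynomial of the Borromean rings, and Masbaum's formula for the twists give

  `I_{M(a, b, c)}(q) = ∑ n, q ^ n * g_{a, n} * g_{b, n} * g_{c, n} *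
      (1 - q ^ (n + 1)) (1 - q ^ (n + 2)) ⋯ (1 - q ^ (2 n + 1)) / (1 - q)`,

where `g_{p, n}` are the Laurent polynomials defined by `g_{0, n} = 0` for `n > 0`, `g_{p, 0} = 1` and
`g_{p + 1, n} = ∑ s ≤ n, q ^ (s (s + 1)) [n, s]_q g_{p, s}` for all integers `p`. (So `g_{1, n} = 1`,
`g_{-1, n} = (-1) ^ n q ^ (- n (n + 3) / 2)`, and `(-1) ^ n q ^ (n (n + 3) / 2) g_{p, n}` is the `n`-th
coefficient of the cyclotomic expansion for the twist knot with `p` full twists.) The expansion in
powers of `h = q - 1` is the Ohtsuki series, the perturbative `SO(3)` invariant, which is determined by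
the LMO invariant. For `(1, 1, 1)` this is the series `1 - 6 h + 45 h^2 - 464 h^3 + ...` of the
Poincaré sphere, for `(1, -1, -1)` the series `1 - 6 h + 69 h^2 - 1064 h^3 + ...` of `Σ(2, 3, 7)`.
-/

namespace Pool.Agent.Zk52.LMO

open PowerSeries Finset

/-- `q = 1 + h` -/
noncomputable def q : PowerSeries ℤ := 1 + X

/-- `1 / q = 1 - h + h ^ 2 - ...` -/
noncomputable def qinv : PowerSeries ℤ := PowerSeries.mk fun k => (-1) ^ k

/-- the Gaussian binomial coefficient `[n, k]` at `q = 1 + h` -/
noncomputable def gauss : ℕ → ℕ → PowerSeries ℤ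
  | _, 0 => 1
  | 0, _ + 1 => 0
  | n + 1, k + 1 => gauss n k + q ^ (k + 1) * gauss n (k + 1)

/-- `g_{p, n}` for `p ≥ 0` -/
noncomputable def twistPos : ℕ → ℕ → PowerSeries ℤ
  | 0, n => if n = 0 then 1 else 0
  | p + 1, n => ∑ s ∈ range (n + 1), q ^ (s * (s + 1)) * gauss n s * twistPos p s

/-- `g_{-p, n}` for `p ≥ 0` (the inverse recursion) -/
noncomputable def twistNeg : ℕ → ℕ → PowerSeries ℤ
  | 0, n => if n = 0 then 1 else 0
  | p + 1, n => qinv ^ (n * (n + 1)) *
      ∑ s ∈ range (n + 1), (-1) ^ (n - s) * q ^ ((n - s).choose 2) * gauss n s * twistNeg p s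

/-- `g_{p, n}` for all integers `p` -/
noncomputable def twist : ℤ → ℕ → PowerSeries ℤ
  | Int.ofNat p, n => twistPos p n
  | Int.negSucc p, n => twistNeg (p + 1) n

/-- `(1 - q ^ (n + 1)) (1 - q ^ (n + 2)) ⋯ (1 - q ^ (2 n + 1)) / (1 - q)` -/
noncomputable def kernel (n : ℕ) : PowerSeries ℤ :=
  (∑ i ∈ range (n + 1), q ^ i) * ∏ k ∈ Ico (n + 2) (2 * n + 2), (1 - q ^ k)

/-- the `n`-th term of the formula, divisible by `h ^ n` -/
noncomputable def term (a b c : ℤ) (n : ℕ) : PowerSeries ℤ :=
  q ^ n * twist a n * twist b n * twist c n * kernel n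

/-- The Ohtsuki series of `M(a, b, c)` in the variable `h = q - 1`: the sum of the terms, in the
`h`-adic topology (the `n`-th term is divisible by `h ^ n`). -/
noncomputable def ohtsuki (a b c : ℤ) : PowerSeries ℤ :=
  PowerSeries.mk fun k => ∑ n ∈ range (k + 1), coeff k (term a b c n)

end Pool.Agent.Zk52.LMO
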