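import Pool.Agent.Zk52.LMO.SpliceDefs

set_option autoImplicit false

/-!
# The Ohtsuki series of the surgeries on the twisted doubles of an arbitrary knot

Let `J` be a knot, and let `t`, `b`, `c` be integers. Let `D(J; t, b)` be the genus one double of `J`:
the boundary of the surface obtained by plumbing an annulus tied in the knot `J` with `t` full twists
and an unknotted annulus with `b` full twists, with the signs for which `D(J; t, b)` is the double twist
knot `K(t, b)` if `J` is the unknot. For `b = 1` and `b = -1` these are the `t`-twisted Whitehead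
doubles of `J`. Let `M(J, t; b, c)` be the integral homology sphere obtained by surgery with
coefficient `-1 / c` on `D(J; t, b)`. Equivalently, it is the union of the exteriors of `J` and of the
double twist knot `K(b, c)`, with the longitude of `J` glued to `μ - t λ` and the meridian of `J` glued
to `λ`, where `μ`, `λ` are the meridian and the longitude of `K(b, c)`. For `t = 0` it is the splice of
`J` and `K(b, c)`. If `b c = 0` it is the 3-sphere, and it does not change if `b` and `c` are
exchanged.

Let `J(N)` be the coloured Jones polynomial of `J` at the `N`-dimensional representation `V_N`,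
normalised at the unknot. By Habiro it is

  `J(N) = ∑ k, a_k ∏_{l = 1}^k (q ^ N + q ^ (-N) - q ^ l - q ^ (-l))`

with Laurent polynomials `a_k` (with integral coefficients), `a_0 = 1`. With the framing `t` and the
unnormalised invariant the knot coloured by `V_N`, `N = 2 m + 1`, has the value
`q ^ (t m (m + 1)) [2 m + 1] J(2 m + 1)`. Let `S_n = ∏_{l = 1}^n (V_3 - q ^ l - 1 - q ^ (-l))` in the
representation ring, where `V_3 V_1 = V_3` and `V_3 V_(2 m + 1) = V_(2 m + 3) + V_(2 m + 1) +
V_(2 m - 1)`, and let `W_n(J, t)` be the value of the `t`-framed knot `J` coloured by `S_n`. It is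
divisible by `h ^ n`. The Ohtsuki series of `M(J, t; b, c)` is

  `τ = ∑ n, cyc b c n * W_n(J, t)`

with the cyclotomic coefficients `cyc b c n` of the double twist knot `K(b, c)`. (For `J` the unknot
this is the series of the surgery on the Borromean rings with coefficients `-1 / t`, `-1 / b`,
`-1 / c`. For two trefoils, `J = K(-1, -1)`, `b = c = -1`, and `t = 1` it is
`1 - 6 h + 93 h ^ 2 - 1616 h ^ 3 + ...`, in accordance with the Gauss sum formula for the graph manifold
obtained by splicing `Σ(2, 3, 1)` and `Σ(2, 3, 7)` along the fibres of orders `1` and `7`.)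

Instead of knots we consider arbitrary sequences `a` of power series (the expansions of the `a_k` in
powers of `h = q - 1`) with `a_0 = 1`. For a knot `a_1 = v + v' h + ...`, where `v` is minus the
coefficient of `z ^ 2` of the Conway polynomial (the Vassiliev invariant of degree two), and if `v = 0`
then `v'` is the Vassiliev invariant of degree three, up to a factor.
-/

namespace Pool.Agent.Zk52.LMO

open PowerSeries Finset

/-- `q ^ z` for an integer `z` -/
noncomputable def qz (z : ℤ) : PowerSeries ℤ :=
  if 0 ≤ z then q ^ z.toNat else qinv ^ (-z).toNat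

/-- The coloured Jones polynomial `J(2 m + 1)` with cyclotomic coefficients `a_k`. -/
noncomputable def jones (a : ℕ → PowerSeries ℤ) (m : ℕ) : PowerSeries ℤ :=
  ∑ k ∈ range (2 * m + 1),
    a k * ∏ l ∈ Icc 1 k, (q ^ (2 * m + 1) + qinv ^ (2 * m + 1) - q ^ l - qinv ^ l)

/-- The value of the `t`-framed knot coloured by `V_{2 m + 1}`. -/
noncomputable def framed (a : ℕ → PowerSeries ℤ) (t : ℤ) (m : ℕ) : PowerSeries ℤ :=
  qz (t * (m * (m + 1))) * (qinv ^ m * ∑ i ∈ range (2 * m + 1), q ^ i) * jones a m

/-- `colS F n m`: the value of a knot coloured by `S_n V_{2 m + 1}`, if `F m` is its value coloured by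
`V_{2 m + 1}`; the recursion multiplies by `V_3 - q ^ (n + 1) - 1 - q ^ (-(n + 1))`. -/
noncomputable def colS (F : ℕ → PowerSeries ℤ) : ℕ → ℕ → PowerSeries ℤ
  | 0, m => F m
  | n + 1, m => (if m = 0 then colS F n 1 else colS F n (m + 1) + colS F n m + colS F n (m - 1)) -
      (q ^ (n + 1) + 1 + qinv ^ (n + 1)) * colS F n m

/-- The `n`-th term of the formula for `M(J, t; b, c)`. -/
noncomputable def doubleTerm (a : ℕ → PowerSeries ℤ) (t b c : ℤ) (n : ℕ) : PowerSeries ℤ :=
  cyc b c n * colS (framed a t) n 0

/-- The Ohtsuki series of `M(J, t; b, c)` in the variable `h = q - 1`, where `a` is the sequence of the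
cyclotomic coefficients of `J`: the sum of all terms, in the `h`-adic topology (the `n`-th term is
divisible by `h ^ n`). -/
noncomputable def double (a : ℕ → PowerSeries ℤ) (t b c : ℤ) : PowerSeries ℤ :=
  PowerSeries.mk fun k => ∑ n ∈ range (k + 1), coeff k (doubleTerm a t b c n)

end Pool.Agent.Zk52.LMO
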