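import Pool.Agent.Zk52.LMO.Defs

set_option autoImplicit false

/-!
# The Ohtsuki series of the splices of two genus one two-bridge knots

Let `K(a, b)` be the double twist knot: the knot obtained from a component of the Borromean rings by
surgery with the coefficients `-1 / a` and `-1 / b` on the two others. The nontrivial ones
(`a b ≠ 0`) are exactly the two-bridge knots of genus one. The splice `S(a, b | c, d)` of `K(a, b)` and
`K(c, d)` is the integral homology sphere obtained by gluing the exteriors of the two knots so that the
meridian of each is the longitude of the other. It is the result of the surgery with the coefficients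
`-1 / a`, `-1 / b`, `-1 / c`, `-1 / d` on the four-component Milnor link (the Bing double of a component
of the Borromean rings). Its Casson invariant is `0`, and it is the 3-sphere if `a b c d = 0`.

Let `N = 2 m + 1` be odd, `[N] = q ^ (-m) + ⋯ + q ^ m`. By Habiro and Masbaum the coloured Jones
polynomial of `K(a, b)`, normalised at the unknot, is

  `J(N) = ∑ n, cyc a b n * ∏_{l = 1}^n (q ^ N + q ^ (-N) - q ^ l - q ^ (-l))`,
  `cyc a b n = (-1) ^ n q ^ (n (n + 3) / 2) g_{a, n} g_{b, n}`

with the Laurent polynomials `g_{p, n} = twist p n` of `Pool.Agent.Zk52.LMO.Defs`. Let `V_N` be the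
irreducible representation of dimension `N`, and let `S_n = ∏_{l = 1}^n (V_3 - q ^ l - 1 - q ^ (-l))`.
The Hopf pairing (the invariant of the Hopf link coloured by two representations) is symmetric, and
`⟨V_N, S_n⟩ = [N] ∏_{l = 1}^n (q ^ N + q ^ (-N) - q ^ l - q ^ (-l))`. Since the splice is the result of
the surgery with coefficients `0` on the components of the link which is the Hopf link with `K(a, b)`,
`K(c, d)` tied in its components, the Ohtsuki series of the splice is

  `τ = ∑ i k, cyc a b i * cyc c d k * ⟨S_i, S_k⟩`,

with `S_i = ∑_{m ≤ i} (-1) ^ (i - m) q ^ ((m (m + 1) - i (i + 1)) / 2) [2 i + 1, i - m]_q V_{2 m + 1}`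
(the finite triple product identity). For the splice of two trefoils, `S(-1, -1 | -1, -1)`, this is
`1 + 24 h ^ 2 - 120 h ^ 3 + 2066 h ^ 4 - ...`, `h = q - 1`, in accordance with the Gauss sum formula for
the plumbed homology spheres.
-/

namespace Pool.Agent.Zk52.LMO

open PowerSeries Finset

/-- the `n`-th coefficient of the cyclotomic expansion of the coloured Jones polynomial of the double
twist knot `K(a, b)` -/
noncomputable def cyc (a b : ℤ) (n : ℕ) : PowerSeries ℤ :=
  (-1) ^ n * q ^ (n * (n + 3) / 2) * twist a n * twist b n

/-- the coefficient of `V_{2 m + 1}` in `S_i` (for `m ≤ i`) -/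
noncomputable def expS (i m : ℕ) : PowerSeries ℤ :=
  (-1) ^ (i - m) * qinv ^ ((i * (i + 1) - m * (m + 1)) / 2) * gauss (2 * i + 1) (i - m)

/-- the Hopf pairing `⟨V_{2 m + 1}, S_k⟩`, with `N = 2 m + 1`:
`[N] ∏_{l = 1}^k (q ^ N + q ^ (-N) - q ^ l - q ^ (-l))` -/
noncomputable def pairV (m k : ℕ) : PowerSeries ℤ :=
  (qinv ^ m * ∑ i ∈ range (2 * m + 1), q ^ i) *
    ∏ l ∈ Icc 1 k, (q ^ (2 * m + 1) + qinv ^ (2 * m + 1) - q ^ l - qinv ^ l)

/-- the Hopf pairing `⟨S_i, S_k⟩`, by expanding `S_i` -/
noncomputable def pairS (i k : ℕ) : PowerSeries ℤ :=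
  ∑ m ∈ range (i + 1), expS i m * pairV m k

/-- the `(i, k)`-th term of the formula for the splice; the pairing is symmetric, and we expand the
polynomial of the smaller degree -/
noncomputable def spliceTerm (a b c d : ℤ) (i k : ℕ) : PowerSeries ℤ :=
  cyc a b i * cyc c d k * pairS (min i k) (max i k)

/-- The Ohtsuki series of the splice `S(a, b | c, d)` of the double twist knots `K(a, b)` and `K(c, d)`
in the variable `h = q - 1`: the sum of all terms, in the `h`-adic topology (the term with indices
`i`, `k` is divisible by `h ^ (2 max(i, k))`). -/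
noncomputable def splice (a b c d : ℤ) : PowerSeries ℤ :=
  PowerSeries.mk fun n => ∑ i ∈ range (n + 1), ∑ k ∈ range (n + 1), coeff n (spliceTerm a b c d i k)

end Pool.Agent.Zk52.LMO
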