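import Pool.Agent.Zk52.LMO.Twist8
import Pool.Agent.Zk52.LMO.SpliceDefs

set_option autoImplicit false
set_option linter.unusedSimpArgs false

/-! The first coefficients of the cyclotomic coefficients and of the Hopf pairings. -/

namespace Pool.Agent.Zk52.LMO

open PowerSeries Finset

/-- the coefficient of `h ^ 0` in `cyc a b 1`, `s = a + b`, `p = a b` -/
def A10 (s p : ℚ) : ℚ := (-1) * p

/-- the coefficient of `h ^ 1` in `cyc a b 1`, `s = a + b`, `p = a b` -/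
def A11 (s p : ℚ) : ℚ := (-1) * s * p

/-- the coefficient of `h ^ 2` in `cyc a b 1`, `s = a + b`, `p = a b` -/
def A12 (s p : ℚ) : ℚ := (1 / 3) * p + (1 / 3) * p ^ 2 + (1 / 2) * s * p + (-2 / 3) * s ^ 2 * p

/-- the coefficient of `h ^ 3` in `cyc a b 1`, `s = a + b`, `p = a b` -/
def A13 (s p : ℚ) : ℚ := (-1 / 3) * p + (-1 / 3) * p ^ 2 + (1 / 3) * s * p ^ 2 + (2 / 3) * s ^ 2 * p + (-1 / 3) * s ^ 3 * p

/-- the coefficient of `h ^ 4` in `cyc a b 1`, `s = a + b`, `p = a b` -/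
def A14 (s p : ℚ) : ℚ := (43 / 180) * p + (7 / 36) * p ^ 2 + (-2 / 45) * p ^ 3 + (-1 / 4) * s * p + (-1 / 2) * s * p ^ 2 + (-7 / 18) * s ^ 2 * p + (1 / 5) * s ^ 2 * p ^ 2 + (1 / 2) * s ^ 3 * p + (-2 / 15) * s ^ 4 * p

/-- the coefficient of `h ^ 5` in `cyc a b 1`, `s = a + b`, `p = a b` -/
def A15 (s p : ℚ) : ℚ := (-13 / 90) * p + (-1 / 18) * p ^ 2 + (4 / 45) * p ^ 3 + (19 / 60) * s * p + (17 / 36) * s * p ^ 2 + (-2 / 45) * s * p ^ 3 + (1 / 9) * s ^ 2 * p + (-2 / 5) * s ^ 2 * p ^ 2 + (-17 / 36) * s ^ 3 * p + (4 / 45) * s ^ 3 * p ^ 2 + (4 / 15) * s ^ 4 * p + (-2 / 45) * s ^ 5 * p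

/-- the coefficient of `h ^ 0` in `cyc a b 2`, `s = a + b`, `p = a b` -/
def A20 (s p : ℚ) : ℚ := 1 * p ^ 2

/-- the coefficient of `h ^ 1` in `cyc a b 2`, `s = a + b`, `p = a b` -/
def A21 (s p : ℚ) : ℚ := (-1 / 6) * s * p + (8 / 3) * s * p ^ 2

/-- the coefficient of `h ^ 2` in `cyc a b 2`, `s = a + b`, `p = a b` -/
def A22 (s p : ℚ) : ℚ := (1 / 36) * p + (-55 / 36) * p ^ 2 + (-14 / 9) * p ^ 3 + (1 / 12) * s * p + (-4 / 3) * s * p ^ 2 + (-4 / 9) * s ^ 2 * p + (13 / 3) * s ^ 2 * p ^ 2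

/-- the coefficient of `h ^ 3` in `cyc a b 2`, `s = a + b`, `p = a b` -/
def A23 (s p : ℚ) : ℚ := (-1 / 36) * p + (55 / 36) * p ^ 2 + (14 / 9) * p ^ 3 + (11 / 36) * s * p + (-55 / 18) * s * p ^ 2 + (-40 / 9) * s * p ^ 3 + (4 / 9) * s ^ 2 * p + (-13 / 3) * s ^ 2 * p ^ 2 + (-13 / 18) * s ^ 3 * p + (16 / 3) * s ^ 3 * p ^ 2

/-- the coefficient of `h ^ 0` in `cyc a b 3`, `s = a + b`, `p = a b` -/
def A30 (s p : ℚ) : ℚ := (-1) * p ^ 3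

/-- the coefficient of `h ^ 1` in `cyc a b 3`, `s = a + b`, `p = a b` -/
def A31 (s p : ℚ) : ℚ := (1 / 2) * s * p ^ 2 + (-5) * s * p ^ 3

theorem cyc8_1 (a b : ℤ) : ∃ x6 x7 : ℚ, R8 (cyc a b 1)
    (A10 (a + b) (a * b)) (A11 (a + b) (a * b)) (A12 (a + b) (a * b)) (A13 (a + b) (a * b)) (A14 (a + b) (a * b)) (A15 (a + b) (a * b)) x6 x7 := by
  obtain ⟨u6, u7, hu⟩ := twist8_1 a
  obtain ⟨v6, v7, hv⟩ := twist8_1 b
  have e : cyc a b 1 = -(q ^ 2 * twist a 1 * twist b 1) := by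
    unfold cyc
    norm_num
  have key := (((R8_qp 2).mul hu).mul hv).neg
  rw [← e] at key
  refine ⟨_, _, key.of_eq ?_ ?_ ?_ ?_ ?_ ?_ rfl rfl ⟩ <;>
    simp only [T10, T11, T12, T13, T14, T15, A10, A11, A12, A13, A14, A15] <;>
    push_cast <;> ring

theorem cyc8_2 (a b : ℤ) : ∃ x4 x5 x6 x7 : ℚ, R8 (cyc a b 2)
    (A20 (a + b) (a * b)) (A21 (a + b) (a * b)) (A22 (a + b) (a * b)) (A23 (a + b) (a * b)) x4 x5 x6 x7 := by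
  obtain ⟨u4, u5, u6, u7, hu⟩ := twist8_2 a
  obtain ⟨v4, v5, v6, v7, hv⟩ := twist8_2 b
  have e : cyc a b 2 = q ^ 5 * twist a 2 * twist b 2 := by
    unfold cyc
    norm_num
  have key := ((R8_qp 5).mul hu).mul hv
  rw [← e] at key
  refine ⟨_, _, _, _, key.of_eq ?_ ?_ ?_ ?_ rfl rfl rfl rfl ⟩ <;>
    simp only [T20, T21, T22, T23, A20, A21, A22, A23] <;>
    push_cast <;> ring

theorem cyc8_3 (a b : ℤ) : ∃ x2 x3 x4 x5 x6 x7 : ℚ, R8 (cyc a b 3)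
    (A30 (a + b) (a * b)) (A31 (a + b) (a * b)) x2 x3 x4 x5 x6 x7 := by
  obtain ⟨u2, u3, u4, u5, u6, u7, hu⟩ := twist8_3 a
  obtain ⟨v2, v3, v4, v5, v6, v7, hv⟩ := twist8_3 b
  have e : cyc a b 3 = -(q ^ 9 * twist a 3 * twist b 3) := by
    unfold cyc
    norm_num
  have key := (((R8_qp 9).mul hu).mul hv).neg
  rw [← e] at key
  refine ⟨_, _, _, _, _, _, key.of_eq ?_ ?_ rfl rfl rfl rfl rfl rfl ⟩ <;>
    simp only [T30, T31, A30, A31] <;>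
    push_cast <;> ring

theorem pairV_eq_zero {m k : ℕ} (h : 2 * m + 1 ≤ k) : pairV m k = 0 := by
  unfold pairV
  rw [prod_eq_zero (i := 2 * m + 1) (by rw [mem_Icc]; omega) (by ring), mul_zero]

theorem pairS_eq_zero {i k : ℕ} (h : 2 * i + 1 ≤ k) : pairS i k = 0 := by
  unfold pairS
  refine sum_eq_zero fun m hm => ?_
  rw [mem_range] at hm
  rw [pairV_eq_zero (by omega), mul_zero]

theorem R8_F31 : R8 (q ^ 3 + qinv ^ 3 - q ^ 1 - qinv ^ 1) 0 0 8 (-8) 14 (-20) 27 (-35) := by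
  refine ((((R8_qp 3).add (R8_qip 3)).sub (R8_qp 1)).sub (R8_qip 1)).of_eq
    ?_ ?_ ?_ ?_ ?_ ?_ ?_ ?_ <;> norm_num

theorem R8_F32 : R8 (q ^ 3 + qinv ^ 3 - q ^ 2 - qinv ^ 2) 0 0 5 (-5) 10 (-15) 21 (-28) := by
  refine ((((R8_qp 3).add (R8_qip 3)).sub (R8_qp 2)).sub (R8_qip 2)).of_eq
    ?_ ?_ ?_ ?_ ?_ ?_ ?_ ?_ <;> norm_num

theorem R8_F51 : R8 (q ^ 5 + qinv ^ 5 - q ^ 1 - qinv ^ 1) 0 0 24 (-24) 74 (-124) 209 (-329) := by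
  refine ((((R8_qp 5).add (R8_qip 5)).sub (R8_qp 1)).sub (R8_qip 1)).of_eq
    ?_ ?_ ?_ ?_ ?_ ?_ ?_ ?_ <;> norm_num

theorem R8_F52 : R8 (q ^ 5 + qinv ^ 5 - q ^ 2 - qinv ^ 2) 0 0 21 (-21) 70 (-119) 203 (-322) := by
  refine ((((R8_qp 5).add (R8_qip 5)).sub (R8_qp 2)).sub (R8_qip 2)).of_eq
    ?_ ?_ ?_ ?_ ?_ ?_ ?_ ?_ <;> norm_num

theorem R8_F53 : R8 (q ^ 5 + qinv ^ 5 - q ^ 3 - qinv ^ 3) 0 0 16 (-16) 60 (-104) 182 (-294) := by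
  refine ((((R8_qp 5).add (R8_qip 5)).sub (R8_qp 3)).sub (R8_qip 3)).of_eq
    ?_ ?_ ?_ ?_ ?_ ?_ ?_ ?_ <;> norm_num

theorem R8_F71 : R8 (q ^ 7 + qinv ^ 7 - q ^ 1 - qinv ^ 1) 0 0 48 (-48) 244 (-440) 930 (-1714) := by
  refine ((((R8_qp 7).add (R8_qip 7)).sub (R8_qp 1)).sub (R8_qip 1)).of_eq
    ?_ ?_ ?_ ?_ ?_ ?_ ?_ ?_ <;> norm_num

theorem R8_F72 : R8 (q ^ 7 + qinv ^ 7 - q ^ 2 - qinv ^ 2) 0 0 45 (-45) 240 (-435) 924 (-1707) := by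
  refine ((((R8_qp 7).add (R8_qip 7)).sub (R8_qp 2)).sub (R8_qip 2)).of_eq
    ?_ ?_ ?_ ?_ ?_ ?_ ?_ ?_ <;> norm_num

theorem R8_F73 : R8 (q ^ 7 + qinv ^ 7 - q ^ 3 - qinv ^ 3) 0 0 40 (-40) 230 (-420) 903 (-1679) := by
  refine ((((R8_qp 7).add (R8_qip 7)).sub (R8_qp 3)).sub (R8_qip 3)).of_eq
    ?_ ?_ ?_ ?_ ?_ ?_ ?_ ?_ <;> norm_num

theorem R8_sum1 : R8 (∑ i ∈ range (2 * 1 + 1), q ^ i) 3 3 1 0 0 0 0 0 := by
  have e : ∑ i ∈ range (2 * 1 + 1), q ^ i = 1 + q ^ 1 + q ^ 2 := by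
    simp [sum_range_succ]
  rw [e]
  refine ((R8_one.add (R8_qp 1)).add (R8_qp 2)).of_eq ?_ ?_ ?_ ?_ ?_ ?_ ?_ ?_ <;> norm_num

theorem R8_qodd1 : R8 (qinv ^ 1 * ∑ i ∈ range (2 * 1 + 1), q ^ i) 3 0 1 (-1) 1 (-1) 1 (-1) := by
  refine ((R8_qip 1).mul R8_sum1).of_eq ?_ ?_ ?_ ?_ ?_ ?_ ?_ ?_ <;> norm_num

theorem R8_sum2 : R8 (∑ i ∈ range (2 * 2 + 1), q ^ i) 5 10 10 5 1 0 0 0 := by
  have e : ∑ i ∈ range (2 * 2 + 1), q ^ i = 1 + q ^ 1 + q ^ 2 + q ^ 3 + q ^ 4 := by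
    simp [sum_range_succ]
  rw [e]
  refine ((((R8_one.add (R8_qp 1)).add (R8_qp 2)).add (R8_qp 3)).add (R8_qp 4)).of_eq ?_ ?_ ?_ ?_ ?_ ?_ ?_ ?_ <;> norm_num

theorem R8_qodd2 : R8 (qinv ^ 2 * ∑ i ∈ range (2 * 2 + 1), q ^ i) 5 0 5 (-5) 6 (-7) 8 (-9) := by
  refine ((R8_qip 2).mul R8_sum2).of_eq ?_ ?_ ?_ ?_ ?_ ?_ ?_ ?_ <;> norm_num

theorem R8_sum3 : R8 (∑ i ∈ range (2 * 3 + 1), q ^ i) 7 21 35 35 21 7 1 0 := by
  have e : ∑ i ∈ range (2 * 3 + 1), q ^ i = 1 + q ^ 1 + q ^ 2 + q ^ 3 + q ^ 4 + q ^ 5 + q ^ 6 := by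
    simp [sum_range_succ]
  rw [e]
  refine ((((((R8_one.add (R8_qp 1)).add (R8_qp 2)).add (R8_qp 3)).add (R8_qp 4)).add (R8_qp 5)).add (R8_qp 6)).of_eq ?_ ?_ ?_ ?_ ?_ ?_ ?_ ?_ <;> norm_num

theorem R8_qodd3 : R8 (qinv ^ 3 * ∑ i ∈ range (2 * 3 + 1), q ^ i) 7 0 14 (-14) 21 (-28) 36 (-45) := by
  refine ((R8_qip 3).mul R8_sum3).of_eq ?_ ?_ ?_ ?_ ?_ ?_ ?_ ?_ <;> norm_num

theorem R8_pairV11 : R8 (pairV 1 1) 0 0 24 (-24) 50 (-76) 111 (-155) := by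
  have e : ∏ l ∈ Icc 1 1, (q ^ (2 * 1 + 1) + qinv ^ (2 * 1 + 1) - q ^ l - qinv ^ l) =
      (q ^ 3 + qinv ^ 3 - q ^ 1 - qinv ^ 1) := by
    simp [prod_Icc_succ_top]
  unfold pairV
  rw [e]
  refine (R8_qodd1.mul R8_F31).of_eq ?_ ?_ ?_ ?_ ?_ ?_ ?_ ?_ <;> norm_num

theorem R8_pairV12 : R8 (pairV 1 2) 0 0 0 0 120 (-240) 610 (-1230) := by
  have e : ∏ l ∈ Icc 1 2, (q ^ (2 * 1 + 1) + qinv ^ (2 * 1 + 1) - q ^ l - qinv ^ l) =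
      (q ^ 3 + qinv ^ 3 - q ^ 1 - qinv ^ 1) * (q ^ 3 + qinv ^ 3 - q ^ 2 - qinv ^ 2) := by
    simp [prod_Icc_succ_top]
  unfold pairV
  rw [e]
  refine (R8_qodd1.mul (R8_F31.mul R8_F32)).of_eq ?_ ?_ ?_ ?_ ?_ ?_ ?_ ?_ <;> norm_num

theorem R8_pairV22 : R8 (pairV 2 2) 0 0 0 0 2520 (-5040) 21210 (-51030) := by
  have e : ∏ l ∈ Icc 1 2, (q ^ (2 * 2 + 1) + qinv ^ (2 * 2 + 1) - q ^ l - qinv ^ l) =
      (q ^ 5 + qinv ^ 5 - q ^ 1 - qinv ^ 1) * (q ^ 5 + qinv ^ 5 - q ^ 2 - qinv ^ 2) := by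
    simp [prod_Icc_succ_top]
  unfold pairV
  rw [e]
  refine (R8_qodd2.mul (R8_F51.mul R8_F52)).of_eq ?_ ?_ ?_ ?_ ?_ ?_ ?_ ?_ <;> norm_num

theorem R8_pairV23 : R8 (pairV 2 3) 0 0 0 0 0 0 40320 (-120960) := by
  have e : ∏ l ∈ Icc 1 3, (q ^ (2 * 2 + 1) + qinv ^ (2 * 2 + 1) - q ^ l - qinv ^ l) =
      (q ^ 5 + qinv ^ 5 - q ^ 1 - qinv ^ 1) * (q ^ 5 + qinv ^ 5 - q ^ 2 - qinv ^ 2) * (q ^ 5 + qinv ^ 5 - q ^ 3 - qinv ^ 3) := by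
    simp [prod_Icc_succ_top]
  unfold pairV
  rw [e]
  refine (R8_qodd2.mul ((R8_F51.mul R8_F52).mul R8_F53)).of_eq ?_ ?_ ?_ ?_ ?_ ?_ ?_ ?_ <;> norm_num

theorem R8_pairV33 : R8 (pairV 3 3) 0 0 0 0 0 0 604800 (-1814400) := by
  have e : ∏ l ∈ Icc 1 3, (q ^ (2 * 3 + 1) + qinv ^ (2 * 3 + 1) - q ^ l - qinv ^ l) =
      (q ^ 7 + qinv ^ 7 - q ^ 1 - qinv ^ 1) * (q ^ 7 + qinv ^ 7 - q ^ 2 - qinv ^ 2) * (q ^ 7 + qinv ^ 7 - q ^ 3 - qinv ^ 3) := by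
    simp [prod_Icc_succ_top]
  unfold pairV
  rw [e]
  refine (R8_qodd3.mul ((R8_F71.mul R8_F72).mul R8_F73)).of_eq ?_ ?_ ?_ ?_ ?_ ?_ ?_ ?_ <;> norm_num

theorem gauss_one (n : ℕ) : gauss (n + 1) 1 = ∑ i ∈ range (n + 1), q ^ i := by
  induction n with
  | zero => simp [gauss]
  | succ n ih =>
    have : gauss (n + 1 + 1) 1 = gauss (n + 1) 0 + q ^ 1 * gauss (n + 1) 1 := rfl
    rw [this, ih, gauss_zero, sum_range_succ' (fun i => q ^ i) (n + 1), mul_sum, add_comm]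
    congr 1
    refine sum_congr rfl fun i _ => ?_
    ring

theorem expS_self (i : ℕ) : expS i i = 1 := by
  unfold expS
  simp [gauss_zero]

theorem expS_21 : expS 2 1 = -(qinv ^ 2 * ∑ i ∈ range (2 * 2 + 1), q ^ i) := by
  unfold expS
  rw [show 2 - 1 = 1 from rfl, gauss_one]
  norm_num

theorem expS_32 : expS 3 2 = -(qinv ^ 3 * ∑ i ∈ range (2 * 3 + 1), q ^ i) := by
  unfold expS
  rw [show 3 - 2 = 1 from rfl, gauss_one]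
  norm_num

theorem pairS_00 : pairS 0 0 = 1 := by
  simp [pairS, expS_self, pairV]

theorem R8_pairS11 : R8 (pairS 1 1) 0 0 24 (-24) 50 (-76) 111 (-155) := by
  have e : pairS 1 1 = pairV 1 1 := by
    simp only [pairS, sum_range_succ, range_zero, sum_empty, expS_self]
    rw [pairV_eq_zero (m := 0) (k := 1) (by norm_num)]
    ring
  rw [e]
  exact R8_pairV11

theorem R8_pairS12 : R8 (pairS 1 2) 0 0 0 0 120 (-240) 610 (-1230) := by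
  have e : pairS 1 2 = pairV 1 2 := by
    simp only [pairS, sum_range_succ, range_zero, sum_empty, expS_self]
    rw [pairV_eq_zero (m := 0) (k := 2) (by norm_num)]
    ring
  rw [e]
  exact R8_pairV12

theorem R8_pairS22 : R8 (pairS 2 2) 0 0 0 0 1920 (-3840) 17560 (-43080) := by
  have e : pairS 2 2 = pairV 2 2 - (qinv ^ 2 * ∑ i ∈ range (2 * 2 + 1), q ^ i) * pairV 1 2 := by
    simp only [pairS, sum_range_succ _ 2, sum_range_succ _ 1, sum_range_succ _ 0, range_zero,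
      sum_empty, expS_self, expS_21]
    rw [pairV_eq_zero (m := 0) (k := 2) (by norm_num)]
    ring
  rw [e]
  refine (R8_pairV22.sub (R8_qodd2.mul R8_pairV12)).of_eq ?_ ?_ ?_ ?_ ?_ ?_ ?_ ?_ <;> norm_num

theorem R8_pairS23 : R8 (pairS 2 3) 0 0 0 0 0 0 40320 (-120960) := by
  have e : pairS 2 3 = pairV 2 3 := by
    simp only [pairS, sum_range_succ, range_zero, sum_empty, expS_self]
    rw [pairV_eq_zero (m := 0) (k := 3) (by norm_num), pairV_eq_zero (m := 1) (k := 3) (by norm_num)]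
    ring
  rw [e]
  exact R8_pairV23

theorem R8_pairS33 : R8 (pairS 3 3) 0 0 0 0 0 0 322560 (-967680) := by
  have e : pairS 3 3 = pairV 3 3 - (qinv ^ 3 * ∑ i ∈ range (2 * 3 + 1), q ^ i) * pairV 2 3 := by
    simp only [pairS, sum_range_succ _ 3, sum_range_succ _ 2, sum_range_succ _ 1,
      sum_range_succ _ 0, range_zero, sum_empty, expS_self, expS_32]
    rw [pairV_eq_zero (m := 0) (k := 3) (by norm_num), pairV_eq_zero (m := 1) (k := 3) (by norm_num)]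
    ring
  rw [e]
  refine (R8_pairV33.sub (R8_qodd3.mul R8_pairV23)).of_eq ?_ ?_ ?_ ?_ ?_ ?_ ?_ ?_ <;> norm_num

end Pool.Agent.Zk52.LMO
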