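import Pool.Agent.Zk52.LMO.Calc5
import Pool.Agent.Zk52.LMO.Pair8
import Pool.Agent.Zk52.LMO.DoubleDefs

set_option autoImplicit false
set_option linter.unusedSimpArgs false
set_option linter.unusedVariables false

/-! The first coefficients of the Ohtsuki series of the surgeries on doubles. -/

namespace Pool.Agent.Zk52.LMO

open PowerSeries Finset

theorem qz_natCast (k : ℕ) : qz k = q ^ k := by simp [qz]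

theorem qz_negSucc (k : ℕ) : qz (Int.negSucc k) = qinv ^ (k + 1) := by
  unfold qz
  rw [if_neg (by simp)]
  congr 1

theorem R5_qz (z : ℤ) : R5 (qz z) 1 (z : ℚ) (((z : ℚ) * (z - 1)) / 2)
    (((z : ℚ) * (z - 1) * (z - 2)) / 6) (((z : ℚ) * (z - 1) * (z - 2) * (z - 3)) / 24) := by
  cases z with
  | ofNat k =>
    have h := R5_qp k
    rw [← qz_natCast] at h
    refine h.of_eq ?_ ?_ ?_ ?_ ?_ <;> push_cast <;> rfl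
  | negSucc k =>
    have h := R5_qip (k + 1)
    rw [← qz_negSucc] at h
    rw [show (((Int.negSucc k : ℤ)) : ℚ) = -((k + 1 : ℕ) : ℚ) by push_cast; ring]
    refine h.of_eq ?_ ?_ ?_ ?_ ?_ <;> push_cast <;> ring

theorem R5_F31 : R5 (q ^ 3 + qinv ^ 3 - q ^ 1 - qinv ^ 1) (0) (0) (8) ((-8)) (14) := by
  refine ((((R5_qp 3).add (R5_qip 3)).sub (R5_qp 1)).sub (R5_qip 1)).of_eq
    ?_ ?_ ?_ ?_ ?_ <;> norm_num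

theorem R5_F32 : R5 (q ^ 3 + qinv ^ 3 - q ^ 2 - qinv ^ 2) (0) (0) (5) ((-5)) (10) := by
  refine ((((R5_qp 3).add (R5_qip 3)).sub (R5_qp 2)).sub (R5_qip 2)).of_eq
    ?_ ?_ ?_ ?_ ?_ <;> norm_num

theorem R5_qodd1 : R5 (qinv ^ 1 * ∑ i ∈ range (2 * 1 + 1), q ^ i) (3) (0) (1) ((-1)) (1) := by
  have e : ∑ i ∈ range (2 * 1 + 1), q ^ i = 1 + q ^ 1 + q ^ 2 := by
    simp [sum_range_succ]
  rw [e]
  refine ((R5_qip 1).mul ((R5_one.add (R5_qp 1)).add (R5_qp 2))).of_eq ?_ ?_ ?_ ?_ ?_ <;> norm_num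

theorem R5_lam1 : R5 (q ^ 1 + 1 + qinv ^ 1) (3) (0) (1) ((-1)) (1) := by
  refine (((R5_qp 1).add R5_one).add (R5_qip 1)).of_eq ?_ ?_ ?_ ?_ ?_ <;> norm_num

theorem R5_F51 : R5 (q ^ 5 + qinv ^ 5 - q ^ 1 - qinv ^ 1) (0) (0) (24) ((-24)) (74) := by
  refine ((((R5_qp 5).add (R5_qip 5)).sub (R5_qp 1)).sub (R5_qip 1)).of_eq
    ?_ ?_ ?_ ?_ ?_ <;> norm_num

theorem R5_F52 : R5 (q ^ 5 + qinv ^ 5 - q ^ 2 - qinv ^ 2) (0) (0) (21) ((-21)) (70) := by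
  refine ((((R5_qp 5).add (R5_qip 5)).sub (R5_qp 2)).sub (R5_qip 2)).of_eq
    ?_ ?_ ?_ ?_ ?_ <;> norm_num

theorem R5_qodd2 : R5 (qinv ^ 2 * ∑ i ∈ range (2 * 2 + 1), q ^ i) (5) (0) (5) ((-5)) (6) := by
  have e : ∑ i ∈ range (2 * 2 + 1), q ^ i = 1 + q ^ 1 + q ^ 2 + q ^ 3 + q ^ 4 := by
    simp [sum_range_succ]
  rw [e]
  refine ((R5_qip 2).mul ((((R5_one.add (R5_qp 1)).add (R5_qp 2)).add (R5_qp 3)).add (R5_qp 4))).of_eq ?_ ?_ ?_ ?_ ?_ <;> norm_num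

theorem R5_lam2 : R5 (q ^ 2 + 1 + qinv ^ 2) (3) (0) (4) ((-4)) (5) := by
  refine (((R5_qp 2).add R5_one).add (R5_qip 2)).of_eq ?_ ?_ ?_ ?_ ?_ <;> norm_num

theorem R5_F71 : R5 (q ^ 7 + qinv ^ 7 - q ^ 1 - qinv ^ 1) (0) (0) (48) ((-48)) (244) := by
  refine ((((R5_qp 7).add (R5_qip 7)).sub (R5_qp 1)).sub (R5_qip 1)).of_eq
    ?_ ?_ ?_ ?_ ?_ <;> norm_num

theorem R5_F72 : R5 (q ^ 7 + qinv ^ 7 - q ^ 2 - qinv ^ 2) (0) (0) (45) ((-45)) (240) := by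
  refine ((((R5_qp 7).add (R5_qip 7)).sub (R5_qp 2)).sub (R5_qip 2)).of_eq
    ?_ ?_ ?_ ?_ ?_ <;> norm_num

theorem R5_qodd3 : R5 (qinv ^ 3 * ∑ i ∈ range (2 * 3 + 1), q ^ i) (7) (0) (14) ((-14)) (21) := by
  have e : ∑ i ∈ range (2 * 3 + 1), q ^ i = 1 + q ^ 1 + q ^ 2 + q ^ 3 + q ^ 4 + q ^ 5 + q ^ 6 := by
    simp [sum_range_succ]
  rw [e]
  refine ((R5_qip 3).mul ((((((R5_one.add (R5_qp 1)).add (R5_qp 2)).add (R5_qp 3)).add (R5_qp 4)).add (R5_qp 5)).add (R5_qp 6))).of_eq ?_ ?_ ?_ ?_ ?_ <;> norm_num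

theorem R5_lam3 : R5 (q ^ 3 + 1 + qinv ^ 3) (3) (0) (9) ((-9)) (15) := by
  refine (((R5_qp 3).add R5_one).add (R5_qip 3)).of_eq ?_ ?_ ?_ ?_ ?_ <;> norm_num

theorem R5_F91 : R5 (q ^ 9 + qinv ^ 9 - q ^ 1 - qinv ^ 1) (0) (0) (80) ((-80)) (620) := by
  refine ((((R5_qp 9).add (R5_qip 9)).sub (R5_qp 1)).sub (R5_qip 1)).of_eq
    ?_ ?_ ?_ ?_ ?_ <;> norm_num

theorem R5_F92 : R5 (q ^ 9 + qinv ^ 9 - q ^ 2 - qinv ^ 2) (0) (0) (77) ((-77)) (616) := by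
  refine ((((R5_qp 9).add (R5_qip 9)).sub (R5_qp 2)).sub (R5_qip 2)).of_eq
    ?_ ?_ ?_ ?_ ?_ <;> norm_num

theorem R5_qodd4 : R5 (qinv ^ 4 * ∑ i ∈ range (2 * 4 + 1), q ^ i) (9) (0) (30) ((-30)) (57) := by
  have e : ∑ i ∈ range (2 * 4 + 1), q ^ i = 1 + q ^ 1 + q ^ 2 + q ^ 3 + q ^ 4 + q ^ 5 + q ^ 6 + q ^ 7 + q ^ 8 := by
    simp [sum_range_succ]
  rw [e]
  refine ((R5_qip 4).mul ((((((((R5_one.add (R5_qp 1)).add (R5_qp 2)).add (R5_qp 3)).add (R5_qp 4)).add (R5_qp 5)).add (R5_qp 6)).add (R5_qp 7)).add (R5_qp 8))).of_eq ?_ ?_ ?_ ?_ ?_ <;> norm_num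

theorem R5_lam4 : R5 (q ^ 4 + 1 + qinv ^ 4) (3) (0) (16) ((-16)) (36) := by
  refine (((R5_qp 4).add R5_one).add (R5_qip 4)).of_eq ?_ ?_ ?_ ?_ ?_ <;> norm_num

theorem X_pow_dvd_prodF (N k : ℕ) : (X : PowerSeries ℤ) ^ (2 * k) ∣
    ∏ l ∈ Icc 1 k, (q ^ N + qinv ^ N - q ^ l - qinv ^ l) := by
  have h : (X : PowerSeries ℤ) ^ (2 * k) = ∏ l ∈ Icc 1 k, (X : PowerSeries ℤ) ^ 2 := by
    rw [prod_const, Nat.card_Icc, ← pow_mul]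
    congr 1
  rw [h]
  refine prod_dvd_prod_of_dvd _ _ fun l _ => ?_
  obtain ⟨h0, h1, -⟩ := (((R8_qp N).add (R8_qip N)).sub (R8_qp l)).sub (R8_qip l)
  rw [X_pow_dvd_iff]
  intro m hm
  interval_cases m
  · have : ((coeff 0 (q ^ N + qinv ^ N - q ^ l - qinv ^ l) : ℤ) : ℚ) = 0 := by rw [h0]; ring
    exact_mod_cast this
  · have : ((coeff 1 (q ^ N + qinv ^ N - q ^ l - qinv ^ l) : ℤ) : ℚ) = 0 := by rw [h1]; ring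
    exact_mod_cast this

theorem jones_eq (a : ℕ → PowerSeries ℤ) (m : ℕ) : ∃ r : PowerSeries ℤ, (X : PowerSeries ℤ) ^ 5 ∣ r ∧
    jones a (m + 1) = a 0 + a 1 * (q ^ (2 * (m + 1) + 1) + qinv ^ (2 * (m + 1) + 1) - q ^ 1 -
      qinv ^ 1) + a 2 * ((q ^ (2 * (m + 1) + 1) + qinv ^ (2 * (m + 1) + 1) - q ^ 1 -
      qinv ^ 1) * (q ^ (2 * (m + 1) + 1) + qinv ^ (2 * (m + 1) + 1) - q ^ 2 - qinv ^ 2)) + r := by
  refine ⟨∑ k ∈ range (2 * m), a (3 + k) * ∏ l ∈ Icc 1 (3 + k),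
    (q ^ (2 * (m + 1) + 1) + qinv ^ (2 * (m + 1) + 1) - q ^ l - qinv ^ l), ?_, ?_⟩
  · refine dvd_sum fun k _ => Dvd.dvd.mul_left ?_ _
    exact (pow_dvd_pow _ (by omega)).trans (X_pow_dvd_prodF _ (3 + k))
  · unfold jones
    rw [show 2 * (m + 1) + 1 = 3 + 2 * m by ring, sum_range_add]
    simp [sum_range_succ, prod_Icc_succ_top]

theorem R5_jones1 (a : ℕ → PowerSeries ℤ) (t : ℤ) {v0 v1 v2 v3 v4 w0 w1 w2 w3 w4 : ℚ} (h0 : a 0 = 1)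
    (h1 : R5 (a 1) v0 v1 v2 v3 v4) (h2 : R5 (a 2) w0 w1 w2 w3 w4) :
    R5 (jones a 1) (1) (0) (8 * v0) ((-8) * v0 + 8 * v1) (14 * v0 + (-8) * v1 + 8 * v2 + 40 * w0) := by
  obtain ⟨r, hr, e⟩ := jones_eq a 0
  rw [show 0 + 1 = 1 from rfl, show 2 * 1 + 1 = 3 from rfl, h0] at e
  rw [e]
  refine (((R5_one.add (h1.mul R5_F31)).add (h2.mul (R5_F31.mul R5_F32))).add
    (R5_of_dvd hr)).of_eq ?_ ?_ ?_ ?_ ?_ <;> ring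

theorem R5_jones2 (a : ℕ → PowerSeries ℤ) (t : ℤ) {v0 v1 v2 v3 v4 w0 w1 w2 w3 w4 : ℚ} (h0 : a 0 = 1)
    (h1 : R5 (a 1) v0 v1 v2 v3 v4) (h2 : R5 (a 2) w0 w1 w2 w3 w4) :
    R5 (jones a 2) (1) (0) (24 * v0) ((-24) * v0 + 24 * v1) (74 * v0 + (-24) * v1 + 24 * v2 + 504 * w0) := by
  obtain ⟨r, hr, e⟩ := jones_eq a 1
  rw [show 1 + 1 = 2 from rfl, show 2 * 2 + 1 = 5 from rfl, h0] at e
  rw [e]
  refine (((R5_one.add (h1.mul R5_F51)).add (h2.mul (R5_F51.mul R5_F52))).add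
    (R5_of_dvd hr)).of_eq ?_ ?_ ?_ ?_ ?_ <;> ring

theorem R5_jones3 (a : ℕ → PowerSeries ℤ) (t : ℤ) {v0 v1 v2 v3 v4 w0 w1 w2 w3 w4 : ℚ} (h0 : a 0 = 1)
    (h1 : R5 (a 1) v0 v1 v2 v3 v4) (h2 : R5 (a 2) w0 w1 w2 w3 w4) :
    R5 (jones a 3) (1) (0) (48 * v0) ((-48) * v0 + 48 * v1) (244 * v0 + (-48) * v1 + 48 * v2 + 2160 * w0) := by
  obtain ⟨r, hr, e⟩ := jones_eq a 2
  rw [show 2 + 1 = 3 from rfl, show 2 * 3 + 1 = 7 from rfl, h0] at e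
  rw [e]
  refine (((R5_one.add (h1.mul R5_F71)).add (h2.mul (R5_F71.mul R5_F72))).add
    (R5_of_dvd hr)).of_eq ?_ ?_ ?_ ?_ ?_ <;> ring

theorem R5_jones4 (a : ℕ → PowerSeries ℤ) (t : ℤ) {v0 v1 v2 v3 v4 w0 w1 w2 w3 w4 : ℚ} (h0 : a 0 = 1)
    (h1 : R5 (a 1) v0 v1 v2 v3 v4) (h2 : R5 (a 2) w0 w1 w2 w3 w4) :
    R5 (jones a 4) (1) (0) (80 * v0) ((-80) * v0 + 80 * v1) (620 * v0 + (-80) * v1 + 80 * v2 + 6160 * w0) := by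
  obtain ⟨r, hr, e⟩ := jones_eq a 3
  rw [show 3 + 1 = 4 from rfl, show 2 * 4 + 1 = 9 from rfl, h0] at e
  rw [e]
  refine (((R5_one.add (h1.mul R5_F91)).add (h2.mul (R5_F91.mul R5_F92))).add
    (R5_of_dvd hr)).of_eq ?_ ?_ ?_ ?_ ?_ <;> ring

theorem framed_zero (a : ℕ → PowerSeries ℤ) (t : ℤ) (h0 : a 0 = 1) : framed a t 0 = 1 := by
  simp [framed, jones, qz, h0]

theorem R5_framed0 (a : ℕ → PowerSeries ℤ) (t : ℤ) {v0 v1 v2 v3 v4 w0 w1 w2 w3 w4 : ℚ} (h0 : a 0 = 1)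
    (h1 : R5 (a 1) v0 v1 v2 v3 v4) (h2 : R5 (a 2) w0 w1 w2 w3 w4) :
    R5 (colS (framed a t) 0 0) (1) (0) (0) (0) (0) := by
  show R5 (framed a t 0) _ _ _ _ _
  rw [framed_zero a t h0]
  exact R5_one

theorem R5_framed1 (a : ℕ → PowerSeries ℤ) (t : ℤ) {v0 v1 v2 v3 v4 w0 w1 w2 w3 w4 : ℚ} (h0 : a 0 = 1)
    (h1 : R5 (a 1) v0 v1 v2 v3 v4) (h2 : R5 (a 2) w0 w1 w2 w3 w4) :
    R5 (colS (framed a t) 0 1)
    (3) (6 * t) (6 * t ^ 2 + (-3) * t + 24 * v0 + 1) (4 * t ^ 3 + (-6) * t ^ 2 + 48 * t * v0 + 4 * t + (-24) * v0 + 24 * v1 + (-1)) (2 * t ^ 4 + (-6) * t ^ 3 + 48 * t ^ 2 * v0 + (15 / 2) * t ^ 2 + (-72) * t * v0 + 48 * t * v1 + (-9 / 2) * t + 50 * v0 + (-24) * v1 + 24 * v2 + 120 * w0 + 1) := by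
  refine (((R5_qz _).mul R5_qodd1).mul (R5_jones1 a t h0 h1 h2)).of_eq ?_ ?_ ?_ ?_ ?_ <;>
    push_cast <;> ring

theorem R5_framed2 (a : ℕ → PowerSeries ℤ) (t : ℤ) {v0 v1 v2 v3 v4 w0 w1 w2 w3 w4 : ℚ} (h0 : a 0 = 1)
    (h1 : R5 (a 1) v0 v1 v2 v3 v4) (h2 : R5 (a 2) w0 w1 w2 w3 w4) :
    R5 (colS (framed a t) 0 2)
    (5) (30 * t) (90 * t ^ 2 + (-15) * t + 120 * v0 + 5) (180 * t ^ 3 + (-90) * t ^ 2 + 720 * t * v0 + 40 * t + (-120) * v0 + 120 * v1 + (-5)) (270 * t ^ 4 + (-270) * t ^ 3 + 2160 * t ^ 2 * v0 + (345 / 2) * t ^ 2 + (-1080) * t * v0 + 720 * t * v1 + (-105 / 2) * t + 490 * v0 + (-120) * v1 + 120 * v2 + 2520 * w0 + 6) := by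
  refine (((R5_qz _).mul R5_qodd2).mul (R5_jones2 a t h0 h1 h2)).of_eq ?_ ?_ ?_ ?_ ?_ <;>
    push_cast <;> ring

theorem R5_framed3 (a : ℕ → PowerSeries ℤ) (t : ℤ) {v0 v1 v2 v3 v4 w0 w1 w2 w3 w4 : ℚ} (h0 : a 0 = 1)
    (h1 : R5 (a 1) v0 v1 v2 v3 v4) (h2 : R5 (a 2) w0 w1 w2 w3 w4) :
    R5 (colS (framed a t) 0 3)
    (7) (84 * t) (504 * t ^ 2 + (-42) * t + 336 * v0 + 14) (2016 * t ^ 3 + (-504) * t ^ 2 + 4032 * t * v0 + 196 * t + (-336) * v0 + 336 * v1 + (-14)) (6048 * t ^ 4 + (-3024) * t ^ 3 + 24192 * t ^ 2 * v0 + 1470 * t ^ 2 + (-6048) * t * v0 + 4032 * t * v1 + (-273) * t + 2380 * v0 + (-336) * v1 + 336 * v2 + 15120 * w0 + 21) := by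
  refine (((R5_qz _).mul R5_qodd3).mul (R5_jones3 a t h0 h1 h2)).of_eq ?_ ?_ ?_ ?_ ?_ <;>
    push_cast <;> ring

theorem R5_framed4 (a : ℕ → PowerSeries ℤ) (t : ℤ) {v0 v1 v2 v3 v4 w0 w1 w2 w3 w4 : ℚ} (h0 : a 0 = 1)
    (h1 : R5 (a 1) v0 v1 v2 v3 v4) (h2 : R5 (a 2) w0 w1 w2 w3 w4) :
    R5 (colS (framed a t) 0 4)
    (9) (180 * t) (1800 * t ^ 2 + (-90) * t + 720 * v0 + 30) (12000 * t ^ 3 + (-1800) * t ^ 2 + 14400 * t * v0 + 660 * t + (-720) * v0 + 720 * v1 + (-30)) (60000 * t ^ 4 + (-18000) * t ^ 3 + 144000 * t ^ 2 * v0 + 7650 * t ^ 2 + (-21600) * t * v0 + 14400 * t * v1 + (-945) * t + 7980 * v0 + (-720) * v1 + 720 * v2 + 55440 * w0 + 57) := by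
  refine (((R5_qz _).mul R5_qodd4).mul (R5_jones4 a t h0 h1 h2)).of_eq ?_ ?_ ?_ ?_ ?_ <;>
    push_cast <;> ring

theorem R5_col10 (a : ℕ → PowerSeries ℤ) (t : ℤ) {v0 v1 v2 v3 v4 w0 w1 w2 w3 w4 : ℚ} (h0 : a 0 = 1)
    (h1 : R5 (a 1) v0 v1 v2 v3 v4) (h2 : R5 (a 2) w0 w1 w2 w3 w4) :
    R5 (colS (framed a t) 1 0)
    (0) (6 * t) (6 * t ^ 2 + (-3) * t + 24 * v0) (4 * t ^ 3 + (-6) * t ^ 2 + 48 * t * v0 + 4 * t + (-24) * v0 + 24 * v1) (2 * t ^ 4 + (-6) * t ^ 3 + 48 * t ^ 2 * v0 + (15 / 2) * t ^ 2 + (-72) * t * v0 + 48 * t * v1 + (-9 / 2) * t + 50 * v0 + (-24) * v1 + 24 * v2 + 120 * w0) := by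
  have e : colS (framed a t) 1 0 = colS (framed a t) 0 1 - (q ^ 1 + 1 + qinv ^ 1) * colS (framed a t) 0 0 := rfl
  rw [e]
  refine ((R5_framed1 a t h0 h1 h2).sub (R5_lam1.mul (R5_framed0 a t h0 h1 h2))).of_eq
    ?_ ?_ ?_ ?_ ?_ <;> ring

theorem R5_col11 (a : ℕ → PowerSeries ℤ) (t : ℤ) {v0 v1 v2 v3 v4 w0 w1 w2 w3 w4 : ℚ} (h0 : a 0 = 1)
    (h1 : R5 (a 1) v0 v1 v2 v3 v4) (h2 : R5 (a 2) w0 w1 w2 w3 w4) :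
    R5 (colS (framed a t) 1 1)
    (0) (18 * t) (78 * t ^ 2 + (-9) * t + 72 * v0) (172 * t ^ 3 + (-78) * t ^ 2 + 624 * t * v0 + 26 * t + (-72) * v0 + 72 * v1) (266 * t ^ 4 + (-258) * t ^ 3 + 2064 * t ^ 2 * v0 + (303 / 2) * t ^ 2 + (-936) * t * v0 + 624 * t * v1 + (-69 / 2) * t + 366 * v0 + (-72) * v1 + 72 * v2 + 2280 * w0) := by
  have e : colS (framed a t) 1 1 = colS (framed a t) 0 2 + colS (framed a t) 0 1 +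
      colS (framed a t) 0 0 - (q ^ 1 + 1 + qinv ^ 1) * colS (framed a t) 0 1 := rfl
  rw [e]
  refine ((((R5_framed2 a t h0 h1 h2).add (R5_framed1 a t h0 h1 h2)).add (R5_framed0 a t h0 h1 h2)).sub (R5_lam1.mul (R5_framed1 a t h0 h1 h2))).of_eq
    ?_ ?_ ?_ ?_ ?_ <;> ring

theorem R5_col12 (a : ℕ → PowerSeries ℤ) (t : ℤ) {v0 v1 v2 v3 v4 w0 w1 w2 w3 w4 : ℚ} (h0 : a 0 = 1)
    (h1 : R5 (a 1) v0 v1 v2 v3 v4) (h2 : R5 (a 2) w0 w1 w2 w3 w4) :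
    R5 (colS (framed a t) 1 2)
    (0) (30 * t) (330 * t ^ 2 + (-15) * t + 120 * v0) (1660 * t ^ 3 + (-330) * t ^ 2 + 2640 * t * v0 + 90 * t + (-120) * v0 + 120 * v1) (5510 * t ^ 4 + (-2490) * t ^ 3 + 19920 * t ^ 2 * v0 + (2085 / 2) * t ^ 2 + (-3960) * t * v0 + 2640 * t * v1 + (-255 / 2) * t + 1330 * v0 + (-120) * v1 + 120 * v2 + 10200 * w0) := by
  have e : colS (framed a t) 1 2 = colS (framed a t) 0 3 + colS (framed a t) 0 2 +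
      colS (framed a t) 0 1 - (q ^ 1 + 1 + qinv ^ 1) * colS (framed a t) 0 2 := rfl
  rw [e]
  refine ((((R5_framed3 a t h0 h1 h2).add (R5_framed2 a t h0 h1 h2)).add (R5_framed1 a t h0 h1 h2)).sub (R5_lam1.mul (R5_framed2 a t h0 h1 h2))).of_eq
    ?_ ?_ ?_ ?_ ?_ <;> ring

theorem R5_col13 (a : ℕ → PowerSeries ℤ) (t : ℤ) {v0 v1 v2 v3 v4 w0 w1 w2 w3 w4 : ℚ} (h0 : a 0 = 1)
    (h1 : R5 (a 1) v0 v1 v2 v3 v4) (h2 : R5 (a 2) w0 w1 w2 w3 w4) :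
    R5 (colS (framed a t) 1 3)
    (0) (42 * t) (882 * t ^ 2 + (-21) * t + 168 * v0) (8148 * t ^ 3 + (-882) * t ^ 2 + 7056 * t * v0 + 224 * t + (-168) * v0 + 168 * v1) (48174 * t ^ 4 + (-12222) * t ^ 3 + 97776 * t ^ 2 * v0 + (8757 / 2) * t ^ 2 + (-10584) * t * v0 + 7056 * t * v1 + (-651 / 2) * t + 3374 * v0 + (-168) * v1 + 168 * v2 + 27720 * w0) := by
  have e : colS (framed a t) 1 3 = colS (framed a t) 0 4 + colS (framed a t) 0 3 +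
      colS (framed a t) 0 2 - (q ^ 1 + 1 + qinv ^ 1) * colS (framed a t) 0 3 := rfl
  rw [e]
  refine ((((R5_framed4 a t h0 h1 h2).add (R5_framed3 a t h0 h1 h2)).add (R5_framed2 a t h0 h1 h2)).sub (R5_lam1.mul (R5_framed3 a t h0 h1 h2))).of_eq
    ?_ ?_ ?_ ?_ ?_ <;> ring

theorem R5_col20 (a : ℕ → PowerSeries ℤ) (t : ℤ) {v0 v1 v2 v3 v4 w0 w1 w2 w3 w4 : ℚ} (h0 : a 0 = 1)
    (h1 : R5 (a 1) v0 v1 v2 v3 v4) (h2 : R5 (a 2) w0 w1 w2 w3 w4) :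
    R5 (colS (framed a t) 2 0)
    (0) (0) (60 * t ^ 2) (160 * t ^ 3 + (-60) * t ^ 2 + 480 * t * v0 + (-10) * t) (260 * t ^ 4 + (-240) * t ^ 3 + 1920 * t ^ 2 * v0 + 105 * t ^ 2 + (-720) * t * v0 + 480 * t * v1 + 15 * t + 120 * v0 + 1920 * w0) := by
  have e : colS (framed a t) 2 0 = colS (framed a t) 1 1 - (q ^ 2 + 1 + qinv ^ 2) * colS (framed a t) 1 0 := rfl
  rw [e]
  refine ((R5_col11 a t h0 h1 h2).sub (R5_lam2.mul (R5_col10 a t h0 h1 h2))).of_eq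
    ?_ ?_ ?_ ?_ ?_ <;> ring

theorem R5_col21 (a : ℕ → PowerSeries ℤ) (t : ℤ) {v0 v1 v2 v3 v4 w0 w1 w2 w3 w4 : ℚ} (h0 : a 0 = 1)
    (h1 : R5 (a 1) v0 v1 v2 v3 v4) (h2 : R5 (a 2) w0 w1 w2 w3 w4) :
    R5 (colS (framed a t) 2 1)
    (0) (0) (180 * t ^ 2) (1320 * t ^ 3 + (-180) * t ^ 2 + 1440 * t * v0 + (-30) * t) (4980 * t ^ 4 + (-1980) * t ^ 3 + 15840 * t ^ 2 * v0 + 435 * t ^ 2 + (-2160) * t * v0 + 1440 * t * v1 + 45 * t + 360 * v0 + 5760 * w0) := by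
  have e : colS (framed a t) 2 1 = colS (framed a t) 1 2 + colS (framed a t) 1 1 +
      colS (framed a t) 1 0 - (q ^ 2 + 1 + qinv ^ 2) * colS (framed a t) 1 1 := rfl
  rw [e]
  refine ((((R5_col12 a t h0 h1 h2).add (R5_col11 a t h0 h1 h2)).add (R5_col10 a t h0 h1 h2)).sub (R5_lam2.mul (R5_col11 a t h0 h1 h2))).of_eq
    ?_ ?_ ?_ ?_ ?_ <;> ring

theorem R5_col22 (a : ℕ → PowerSeries ℤ) (t : ℤ) {v0 v1 v2 v3 v4 w0 w1 w2 w3 w4 : ℚ} (h0 : a 0 = 1)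
    (h1 : R5 (a 1) v0 v1 v2 v3 v4) (h2 : R5 (a 2) w0 w1 w2 w3 w4) :
    R5 (colS (framed a t) 2 2)
    (0) (0) (300 * t ^ 2) (5000 * t ^ 3 + (-300) * t ^ 2 + 2400 * t * v0 + (-50) * t) (37420 * t ^ 4 + (-7500) * t ^ 3 + 60000 * t ^ 2 * v0 + 1125 * t ^ 2 + (-3600) * t * v0 + 2400 * t * v1 + 75 * t + 600 * v0 + 9600 * w0) := by
  have e : colS (framed a t) 2 2 = colS (framed a t) 1 3 + colS (framed a t) 1 2 +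
      colS (framed a t) 1 1 - (q ^ 2 + 1 + qinv ^ 2) * colS (framed a t) 1 2 := rfl
  rw [e]
  refine ((((R5_col13 a t h0 h1 h2).add (R5_col12 a t h0 h1 h2)).add (R5_col11 a t h0 h1 h2)).sub (R5_lam2.mul (R5_col12 a t h0 h1 h2))).of_eq
    ?_ ?_ ?_ ?_ ?_ <;> ring

theorem R5_col30 (a : ℕ → PowerSeries ℤ) (t : ℤ) {v0 v1 v2 v3 v4 w0 w1 w2 w3 w4 : ℚ} (h0 : a 0 = 1)
    (h1 : R5 (a 1) v0 v1 v2 v3 v4) (h2 : R5 (a 2) w0 w1 w2 w3 w4) :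
    R5 (colS (framed a t) 3 0)
    (0) (0) (0) (840 * t ^ 3) (4200 * t ^ 4 + (-1260) * t ^ 3 + 10080 * t ^ 2 * v0 + (-420) * t ^ 2) := by
  have e : colS (framed a t) 3 0 = colS (framed a t) 2 1 - (q ^ 3 + 1 + qinv ^ 3) * colS (framed a t) 2 0 := rfl
  rw [e]
  refine ((R5_col21 a t h0 h1 h2).sub (R5_lam3.mul (R5_col20 a t h0 h1 h2))).of_eq
    ?_ ?_ ?_ ?_ ?_ <;> ring

theorem R5_col31 (a : ℕ → PowerSeries ℤ) (t : ℤ) {v0 v1 v2 v3 v4 w0 w1 w2 w3 w4 : ℚ} (h0 : a 0 = 1)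
    (h1 : R5 (a 1) v0 v1 v2 v3 v4) (h2 : R5 (a 2) w0 w1 w2 w3 w4) :
    R5 (colS (framed a t) 3 1)
    (0) (0) (0) (2520 * t ^ 3) (27720 * t ^ 4 + (-3780) * t ^ 3 + 30240 * t ^ 2 * v0 + (-1260) * t ^ 2) := by
  have e : colS (framed a t) 3 1 = colS (framed a t) 2 2 + colS (framed a t) 2 1 +
      colS (framed a t) 2 0 - (q ^ 3 + 1 + qinv ^ 3) * colS (framed a t) 2 1 := rfl
  rw [e]
  refine ((((R5_col22 a t h0 h1 h2).add (R5_col21 a t h0 h1 h2)).add (R5_col20 a t h0 h1 h2)).sub (R5_lam3.mul (R5_col21 a t h0 h1 h2))).of_eq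
    ?_ ?_ ?_ ?_ ?_ <;> ring

theorem R5_col40 (a : ℕ → PowerSeries ℤ) (t : ℤ) {v0 v1 v2 v3 v4 w0 w1 w2 w3 w4 : ℚ} (h0 : a 0 = 1)
    (h1 : R5 (a 1) v0 v1 v2 v3 v4) (h2 : R5 (a 2) w0 w1 w2 w3 w4) :
    R5 (colS (framed a t) 4 0)
    (0) (0) (0) (0) (15120 * t ^ 4) := by
  have e : colS (framed a t) 4 0 = colS (framed a t) 3 1 - (q ^ 4 + 1 + qinv ^ 4) * colS (framed a t) 3 0 := rfl
  rw [e]
  refine ((R5_col31 a t h0 h1 h2).sub (R5_lam4.mul (R5_col30 a t h0 h1 h2))).of_eq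
    ?_ ?_ ?_ ?_ ?_ <;> ring

end Pool.Agent.Zk52.LMO
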