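import Pool.Agent.Zk52.LMO.Double5

set_option autoImplicit false
set_option linter.unusedSimpArgs false
set_option linter.unusedVariables false

/-! The coefficients of the Ohtsuki series of the surgeries on doubles up to degree four. -/

namespace Pool.Agent.Zk52.LMO

open PowerSeries Finset

theorem doubleTerm_zero (a : ℕ → PowerSeries ℤ) (t b c : ℤ) (h0 : a 0 = 1) :
    doubleTerm a t b c 0 = 1 := by
  have : colS (framed a t) 0 0 = framed a t 0 := rfl
  unfold doubleTerm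
  rw [this, framed_zero a t h0]
  simp [cyc, twist_zero]

/-- **the coefficients up to degree four** -/
theorem double_coeffs (a : ℕ → PowerSeries ℤ) (t b c : ℤ) {v0 v1 v2 v3 v4 w0 w1 w2 w3 w4 : ℚ} (h0 : a 0 = 1)
    (h1 : R5 (a 1) v0 v1 v2 v3 v4) (h2 : R5 (a 2) w0 w1 w2 w3 w4) :
    ((coeff 1 (double a t b c) : ℤ) : ℚ) = (-6) * (b * c) * t ∧
    ((coeff 2 (double a t b c) : ℤ) : ℚ) =
      60 * (b * c) ^ 2 * t ^ 2 + (-6) * (b + c) * (b * c) * t + (-6) * (b * c) * t ^ 2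
      + 3 * (b * c) * t + (-24) * (b * c) * v0 ∧
    ((coeff 3 (double a t b c) : ℤ) : ℚ) =
      (-840) * (b * c) ^ 3 * t ^ 3 + 160 * (b + c) * (b * c) ^ 2 * t ^ 2
      + 160 * (b * c) ^ 2 * t ^ 3 + (-4) * (b + c) ^ 2 * (b * c) * t + (-16) * (b
      + c) * (b * c) * t ^ 2 + (-60) * (b * c) ^ 2 * t ^ 2 + 480 * (b * c) ^ 2 * t * v0
      + (-4) * (b * c) * t ^ 3 + 6 * (b + c) * (b * c) * t + (-24) * (b + c) * (b * c) * v0
      + (-8) * (b * c) ^ 2 * t + 6 * (b * c) * t ^ 2 + (-48) * (b * c) * t * v0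
      + (-2) * (b * c) * t + 24 * (b * c) * v0 + (-24) * (b * c) * v1 ∧
    (t = 0 → ((coeff 4 (double a t b c) : ℤ) : ℚ) =
      (-16) * (b + c) ^ 2 * (b * c) * v0 + 36 * (b + c) * (b * c) * v0 + (-24) * (b
      + c) * (b * c) * v1 + 128 * (b * c) ^ 2 * v0 + 1920 * (b * c) ^ 2 * w0
      + (-42) * (b * c) * v0 + 24 * (b * c) * v1 + (-24) * (b * c) * v2 + (-120) * (b * c) * w0) := by
  obtain ⟨x6, x7, hx⟩ := cyc8_1 b c
  obtain ⟨y4, y5, y6, y7, hy⟩ := cyc8_2 b c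
  obtain ⟨z2, z3, z4, z5, z6, z7, hz⟩ := cyc8_3 b c
  obtain ⟨r0, r1, r2, r3, r4, hr⟩ := R5_any (cyc b c 4)
  have t0 : R5 (doubleTerm a t b c 0) 1 0 0 0 0 := by
    rw [doubleTerm_zero a t b c h0]; exact R5_one
  have t1 : R5 (doubleTerm a t b c 1) _ _ _ _ _ := hx.to5.mul (R5_col10 a t h0 h1 h2)
  have t2 : R5 (doubleTerm a t b c 2) _ _ _ _ _ := hy.to5.mul (R5_col20 a t h0 h1 h2)
  have t3 : R5 (doubleTerm a t b c 3) _ _ _ _ _ := hz.to5.mul (R5_col30 a t h0 h1 h2)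
  have t4 : R5 (doubleTerm a t b c 4) _ _ _ _ _ := hr.mul (R5_col40 a t h0 h1 h2)
  obtain ⟨p0, p1, p2, p3, p4⟩ := t0
  obtain ⟨q0, q1, q2, q3, q4⟩ := t1
  obtain ⟨s0, s1, s2, s3, s4⟩ := t2
  obtain ⟨u0, u1, u2, u3, u4⟩ := t3
  obtain ⟨o0, o1, o2, o3, o4⟩ := t4
  refine ⟨?_, ?_, ?_, ?_⟩
  · rw [double, coeff_mk]
    simp only [sum_range_succ, range_zero, sum_empty, Int.cast_add, Int.cast_zero, p1, q1]
    simp only [A10, A11, A12, A13, A14, A15, A20, A21, A22, A23, A30, A31]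
    ring
  · rw [double, coeff_mk]
    simp only [sum_range_succ, range_zero, sum_empty, Int.cast_add, Int.cast_zero, p2, q2, s2]
    simp only [A10, A11, A12, A13, A14, A15, A20, A21, A22, A23, A30, A31]
    ring
  · rw [double, coeff_mk]
    simp only [sum_range_succ, range_zero, sum_empty, Int.cast_add, Int.cast_zero, p3, q3, s3, u3]
    simp only [A10, A11, A12, A13, A14, A15, A20, A21, A22, A23, A30, A31]
    ring
  · intro ht
    rw [double, coeff_mk]
    simp only [sum_range_succ, range_zero, sum_empty, Int.cast_add, Int.cast_zero, p4, q4, s4, u4,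
      o4]
    simp only [A10, A11, A12, A13, A14, A15, A20, A21, A22, A23, A30, A31]
    rw [ht]
    push_cast
    ring

end Pool.Agent.Zk52.LMO
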