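import Pool.Agent.Zk52.LMO.Pair8

set_option autoImplicit false
set_option linter.unusedSimpArgs false
set_option linter.unusedVariables false

/-! The coefficients of the Ohtsuki series of the splices up to degree seven. -/

namespace Pool.Agent.Zk52.LMO

open PowerSeries Finset

theorem X_sq_dvd (N l : ℕ) : (X : PowerSeries ℤ) ^ 2 ∣ q ^ N + qinv ^ N - q ^ l - qinv ^ l := by
  obtain ⟨h0, h1, -⟩ := (((R8_qp N).add (R8_qip N)).sub (R8_qp l)).sub (R8_qip l)
  rw [X_pow_dvd_iff]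
  intro m hm
  interval_cases m
  · have : ((coeff 0 (q ^ N + qinv ^ N - q ^ l - qinv ^ l) : ℤ) : ℚ) = 0 := by rw [h0]; ring
    exact_mod_cast this
  · have : ((coeff 1 (q ^ N + qinv ^ N - q ^ l - qinv ^ l) : ℤ) : ℚ) = 0 := by rw [h1]; ring
    exact_mod_cast this

theorem X_pow_dvd_pairV (m k : ℕ) : (X : PowerSeries ℤ) ^ (2 * k) ∣ pairV m k := by
  unfold pairV
  refine Dvd.dvd.mul_left ?_ _
  have h : (X : PowerSeries ℤ) ^ (2 * k) = ∏ l ∈ Icc 1 k, (X : PowerSeries ℤ) ^ 2 := by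
    rw [prod_const, Nat.card_Icc, ← pow_mul]
    congr 1
  rw [h]
  exact prod_dvd_prod_of_dvd _ _ fun l _ => X_sq_dvd _ _

theorem X_pow_dvd_pairS (i k : ℕ) : (X : PowerSeries ℤ) ^ (2 * k) ∣ pairS i k :=
  dvd_sum fun m _ => Dvd.dvd.mul_left (X_pow_dvd_pairV m k) _

theorem X_pow_dvd_spliceTerm (a b c d : ℤ) (i k : ℕ) :
    (X : PowerSeries ℤ) ^ (2 * max i k) ∣ spliceTerm a b c d i k :=
  Dvd.dvd.mul_left (X_pow_dvd_pairS _ _) _

theorem sum_range_eq {f : ℕ → ℕ → ℤ} {A B : ℕ} (hA : ∀ i k, A ≤ max i k → f i k = 0)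
    (hB : ∀ i k, B ≤ max i k → f i k = 0) :
    ∑ i ∈ range A, ∑ k ∈ range A, f i k = ∑ i ∈ range B, ∑ k ∈ range B, f i k := by
  have aux : ∀ {A B : ℕ}, A ≤ B → (∀ i k, A ≤ max i k → f i k = 0) →
      ∑ i ∈ range A, ∑ k ∈ range A, f i k = ∑ i ∈ range B, ∑ k ∈ range B, f i k := by
    intro A B h hA
    rw [← sum_product', ← sum_product']
    refine sum_subset (product_subset_product (range_mono h) (range_mono h)) ?_
    intro x _ hx
    refine hA _ _ ?_
    rw [mem_product, mem_range, mem_range] at hx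
    omega
  rcases le_total A B with h | h
  · exact aux h hA
  · exact (aux h hB).symm

theorem coeff_splice (a b c d : ℤ) {n M : ℕ} (h : n < 2 * M) :
    coeff n (splice a b c d) =
      ∑ i ∈ range M, ∑ k ∈ range M, coeff n (spliceTerm a b c d i k) := by
  rw [splice, coeff_mk]
  have key : ∀ i k, n < 2 * max i k → coeff n (spliceTerm a b c d i k) = 0 := fun i k hik =>
    X_pow_dvd_iff.1 (X_pow_dvd_spliceTerm a b c d i k) n hik
  exact sum_range_eq (fun i k h' => key i k (by omega)) (fun i k h' => key i k (by omega))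

/-- the sum of the terms which contribute to the coefficients up to degree seven -/
theorem coeff_splice8 (a b c d : ℤ) {n : ℕ} (h : n < 8) :
    coeff n (splice a b c d) = coeff n (1 + (cyc a b 1 * cyc c d 1 * pairS 1 1 +
      (cyc a b 1 * cyc c d 2 + cyc a b 2 * cyc c d 1) * pairS 1 2 +
      cyc a b 2 * cyc c d 2 * pairS 2 2 +
      (cyc a b 2 * cyc c d 3 + cyc a b 3 * cyc c d 2) * pairS 2 3 +
      cyc a b 3 * cyc c d 3 * pairS 3 3) : PowerSeries ℤ) := by
  rw [coeff_splice a b c d (M := 4) (by omega)]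
  simp only [← map_sum]
  congr 1
  have hc : ∀ a b : ℤ, cyc a b 0 = 1 := fun a b => by simp [cyc, twist_zero]
  have z1 : pairS 0 1 = 0 := pairS_eq_zero (by norm_num)
  have z2 : pairS 0 2 = 0 := pairS_eq_zero (by norm_num)
  have z3 : pairS 0 3 = 0 := pairS_eq_zero (by norm_num)
  have z4 : pairS 1 3 = 0 := pairS_eq_zero (by norm_num)
  simp only [spliceTerm, sum_range_succ, range_zero, sum_empty, Nat.reduceLeDiff, min_self,
    max_self, hc, pairS_00, Nat.zero_le, inf_of_le_left, inf_of_le_right, sup_of_le_left,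
    sup_of_le_right, z1, z2, z3, z4, Nat.one_le_ofNat]
  ring

/-- the coefficient of `h ^ 2` divided by `e`; `σ = s + t`, `e = p r`, `u = p + r`,
`X = s t + 16 u`, `Z = 3 (p s + r t) - 8 u σ` -/
def D2 (σ X Z e u : ℚ) : ℚ :=
  24

/-- the coefficient of `h ^ 3` divided by `e`; `σ = s + t`, `e = p r`, `u = p + r`,
`X = s t + 16 u`, `Z = 3 (p s + r t) - 8 u σ` -/
def D3 (σ X Z e u : ℚ) : ℚ :=
  24 * σ + (-24)

/-- the coefficient of `h ^ 4` divided by `e`; `σ = s + t`, `e = p r`, `u = p + r`,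
`X = s t + 16 u`, `Z = 3 (p s + r t) - 8 u σ` -/
def D4 (σ X Z e u : ℚ) : ℚ :=
  16 * σ ^ 2 + (-36) * σ + (-8) * X + 1920 * e + 34

/-- the coefficient of `h ^ 5` divided by `e`; `σ = s + t`, `e = p r`, `u = p + r`,
`X = s t + 16 u`, `Z = 3 (p s + r t) - 8 u σ` -/
def D5 (σ X Z e u : ℚ) : ℚ :=
  8 * σ ^ 3 + (-32) * σ ^ 2 + (-8) * σ * X + 5120 * σ * e + 74 * σ + 16 * X
     + 40 * Z + (-3840) * e + (-44)

/-- the coefficient of `h ^ 6` divided by `e`; `σ = s + t`, `e = p r`, `u = p + r`,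
`X = s t + 16 u`, `Z = 3 (p s + r t) - 8 u σ` -/
def D6 (σ X Z e u : ℚ) : ℚ :=
  (16 / 5) * σ ^ 4 + (-20) * σ ^ 3 + (-24 / 5) * σ ^ 2 * X + 8320 * σ ^ 2 * e
     + (2176 / 9) * σ ^ 2 * u + (320 / 3) * σ ^ 2 + 20 * σ * X + (6208 / 45) * σ * Z
     + (-12800) * σ * e + (-125) * σ + (16 / 15) * X ^ 2 + (-8960 / 3) * X * e
     + 248 * X * u + (-40) * X + (-100) * Z + 322560 * e ^ 2 + 4480 * e * u
     + (171008 / 15) * e + (-12160 / 3) * u ^ 2 + 280 * u + (231 / 5)

/-- the coefficient of `h ^ 7` divided by `e`; `σ = s + t`, `e = p r`, `u = p + r`,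
`X = s t + 16 u`, `Z = 3 (p s + r t) - 8 u σ` -/
def D7 (σ X Z e u : ℚ) : ℚ :=
  (16 / 15) * σ ^ 5 + (-48 / 5) * σ ^ 4 + (-32 / 15) * σ ^ 3 * X
     + 10240 * σ ^ 3 * e + 704 * σ ^ 3 * u + 124 * σ ^ 3 + (72 / 5) * σ ^ 2 * X
     + (1312 / 5) * σ ^ 2 * Z + (-24960) * σ ^ 2 * e + (-2176 / 3) * σ ^ 2 * u
     + (-240) * σ ^ 2 + (16 / 15) * σ * X ^ 2 + (-25600 / 3) * σ * X * e
     + (11536 / 27) * σ * X * u + (-796 / 9) * σ * X + (-6208 / 15) * σ * Z
     + 1612800 * σ * e ^ 2 + (1011200 / 27) * σ * e * u + (253136 / 5) * σ * e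
     + (-54080 / 3) * σ * u ^ 2 + (21320 / 9) * σ * u + (1468 / 9) * σ
     + (-16 / 5) * X ^ 2 + (-1840 / 27) * X * Z + 8960 * X * e + (-744) * X * u
     + 80 * X + (599680 / 27) * Z * e + (-1200) * Z * u + (4180 / 9) * Z
     + (-967680) * e ^ 2 + (-13440) * e * u + (-123008 / 5) * e + 12160 * u ^ 2
     + (-840) * u + (-203 / 5)

/-- **the coefficients up to degree seven** -/
theorem coeffs (a b c d : ℤ) :
    ((coeff 0 (splice a b c d) : ℤ) : ℚ) = 1 ∧
    ((coeff 1 (splice a b c d) : ℤ) : ℚ) = 0 ∧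
    ((coeff 2 (splice a b c d) : ℤ) : ℚ) = (a * b) * (c * d) *
      D2 ((a + b) + (c + d)) ((a + b) * (c + d) + 16 * (a * b + c * d))
        (3 * ((a * b) * (a + b) + (c * d) * (c + d)) -
          8 * (a * b + c * d) * ((a + b) + (c + d)))
        ((a * b) * (c * d)) (a * b + c * d) ∧
    ((coeff 3 (splice a b c d) : ℤ) : ℚ) = (a * b) * (c * d) *
      D3 ((a + b) + (c + d)) ((a + b) * (c + d) + 16 * (a * b + c * d))
        (3 * ((a * b) * (a + b) + (c * d) * (c + d)) -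
          8 * (a * b + c * d) * ((a + b) + (c + d)))
        ((a * b) * (c * d)) (a * b + c * d) ∧
    ((coeff 4 (splice a b c d) : ℤ) : ℚ) = (a * b) * (c * d) *
      D4 ((a + b) + (c + d)) ((a + b) * (c + d) + 16 * (a * b + c * d))
        (3 * ((a * b) * (a + b) + (c * d) * (c + d)) -
          8 * (a * b + c * d) * ((a + b) + (c + d)))
        ((a * b) * (c * d)) (a * b + c * d) ∧
    ((coeff 5 (splice a b c d) : ℤ) : ℚ) = (a * b) * (c * d) *
      D5 ((a + b) + (c + d)) ((a + b) * (c + d) + 16 * (a * b + c * d))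
        (3 * ((a * b) * (a + b) + (c * d) * (c + d)) -
          8 * (a * b + c * d) * ((a + b) + (c + d)))
        ((a * b) * (c * d)) (a * b + c * d) ∧
    ((coeff 6 (splice a b c d) : ℤ) : ℚ) = (a * b) * (c * d) *
      D6 ((a + b) + (c + d)) ((a + b) * (c + d) + 16 * (a * b + c * d))
        (3 * ((a * b) * (a + b) + (c * d) * (c + d)) -
          8 * (a * b + c * d) * ((a + b) + (c + d)))
        ((a * b) * (c * d)) (a * b + c * d) ∧
    ((coeff 7 (splice a b c d) : ℤ) : ℚ) = (a * b) * (c * d) *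
      D7 ((a + b) + (c + d)) ((a + b) * (c + d) + 16 * (a * b + c * d))
        (3 * ((a * b) * (a + b) + (c * d) * (c + d)) -
          8 * (a * b + c * d) * ((a + b) + (c + d)))
        ((a * b) * (c * d)) (a * b + c * d) := by
  obtain ⟨u6, u7, hu⟩ := cyc8_1 a b
  obtain ⟨v6, v7, hv⟩ := cyc8_1 c d
  obtain ⟨w4, w5, w6, w7, hw⟩ := cyc8_2 a b
  obtain ⟨x4, x5, x6, x7, hx⟩ := cyc8_2 c d
  obtain ⟨y2, y3, y4, y5, y6, y7, hy⟩ := cyc8_3 a b
  obtain ⟨z2, z3, z4, z5, z6, z7, hz⟩ := cyc8_3 c d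
  have key := R8_one.add ((((((hu.mul hv).mul R8_pairS11).add
    (((hu.mul hx).add (hw.mul hv)).mul R8_pairS12)).add ((hw.mul hx).mul R8_pairS22)).add
    (((hw.mul hz).add (hy.mul hx)).mul R8_pairS23)).add ((hy.mul hz).mul R8_pairS33))
  obtain ⟨k0, k1, k2, k3, k4, k5, k6, k7⟩ := key
  rw [← coeff_splice8 a b c d (by norm_num)] at k0 k1 k2 k3 k4 k5 k6 k7
  refine ⟨?_, ?_, ?_, ?_, ?_, ?_, ?_, ?_⟩
  · rw [k0]; ring
  · rw [k1]; ring
  · rw [k2]
    simp only [A10, A11, A12, A13, A14, A15, A20, A21, A22, A23, A30, A31, D2]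
    generalize ((a : ℚ) + b) = s
    generalize ((a : ℚ) * b) = p
    generalize ((c : ℚ) + d) = t
    generalize ((c : ℚ) * d) = r
    ring
  · rw [k3]
    simp only [A10, A11, A12, A13, A14, A15, A20, A21, A22, A23, A30, A31, D3]
    generalize ((a : ℚ) + b) = s
    generalize ((a : ℚ) * b) = p
    generalize ((c : ℚ) + d) = t
    generalize ((c : ℚ) * d) = r
    ring
  · rw [k4]
    simp only [A10, A11, A12, A13, A14, A15, A20, A21, A22, A23, A30, A31, D4]
    generalize ((a : ℚ) + b) = s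
    generalize ((a : ℚ) * b) = p
    generalize ((c : ℚ) + d) = t
    generalize ((c : ℚ) * d) = r
    ring
  · rw [k5]
    simp only [A10, A11, A12, A13, A14, A15, A20, A21, A22, A23, A30, A31, D5]
    generalize ((a : ℚ) + b) = s
    generalize ((a : ℚ) * b) = p
    generalize ((c : ℚ) + d) = t
    generalize ((c : ℚ) * d) = r
    ring
  · rw [k6]
    simp only [A10, A11, A12, A13, A14, A15, A20, A21, A22, A23, A30, A31, D6]
    generalize ((a : ℚ) + b) = s
    generalize ((a : ℚ) * b) = p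
    generalize ((c : ℚ) + d) = t
    generalize ((c : ℚ) * d) = r
    ring
  · rw [k7]
    simp only [A10, A11, A12, A13, A14, A15, A20, A21, A22, A23, A30, A31, D7]
    generalize ((a : ℚ) + b) = s
    generalize ((a : ℚ) * b) = p
    generalize ((c : ℚ) + d) = t
    generalize ((c : ℚ) * d) = r
    ring

end Pool.Agent.Zk52.LMO
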