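import Pool.Agent.Zk52.LMO.Calc

set_option autoImplicit false

/-! The first coefficients of the twist coefficients `g_{p, n}`. -/

namespace Pool.Agent.Zk52.LMO

open PowerSeries Finset

theorem R_qp (k : ℕ) {x2 x3 : ℤ} (h2 : 2 * x2 = k * (k - 1))
    (h3 : 6 * x3 = k * (k - 1) * (k - 2)) : R (q ^ k) 1 k x2 x3 := by
  obtain ⟨y2, y3, h, e2, e3⟩ := R_qpow k
  exact h.of_eq rfl rfl (by linarith) (by linarith)

theorem R_qi (n : ℕ) : ∃ x2 x3 : ℤ, R (qinv ^ n) 1 (-n) x2 x3 ∧ 2 * x2 = n * (n + 1) ∧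
    6 * x3 = -(n * (n + 1) * (n + 2)) := by
  induction n with
  | zero => exact ⟨0, 0, by simpa using R_one, by simp, by simp⟩
  | succ n ih =>
    obtain ⟨x2, x3, h, h2, h3⟩ := ih
    refine ⟨x2 + n + 1, x3 - x2 - n - 1, ?_, ?_, ?_⟩
    · rw [pow_succ]
      refine (h.mul R_qinv).of_eq (by ring) (by push_cast; ring) (by ring) (by ring)
    · push_cast; linarith
    · push_cast; linarith

theorem R_qip (k : ℕ) {x2 x3 : ℤ} (h2 : 2 * x2 = k * (k + 1))
    (h3 : 6 * x3 = -(k * (k + 1) * (k + 2))) : R (qinv ^ k) 1 (-k) x2 x3 := by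
  obtain ⟨y2, y3, h, e2, e3⟩ := R_qi k
  exact h.of_eq rfl rfl (by linarith) (by linarith)

theorem gauss_zero (n : ℕ) : gauss n 0 = 1 := by cases n <;> rfl

theorem gauss_11 : gauss 1 1 = 1 := by simp [gauss]

theorem gauss_21 : gauss 2 1 = 1 + q := by simp [gauss]

theorem gauss_22 : gauss 2 2 = 1 := by simp [gauss]

theorem gauss_31 : gauss 3 1 = 1 + q + q ^ 2 := by simp [gauss]; ring

theorem gauss_32 : gauss 3 2 = 1 + q + q ^ 2 := by simp [gauss]

theorem gauss_33 : gauss 3 3 = 1 := by simp [gauss]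

theorem R_3 : R (1 + q + q ^ 2) 3 3 1 0 :=
  ((R_one.add R_q).add (R_qp 2 (x2 := 1) (x3 := 0) (by norm_num) (by norm_num))).of_eq
    (by norm_num) (by norm_num) (by norm_num) (by norm_num)

theorem R_2 : R (1 + q) 2 1 0 0 :=
  (R_one.add R_q).of_eq (by norm_num) (by norm_num) (by norm_num) (by norm_num)

theorem twistPos_zero (p : ℕ) : twistPos p 0 = 1 := by
  induction p with
  | zero => simp [twistPos]
  | succ p ih => simp [twistPos, gauss_zero, ih]

theorem twistNeg_zero (p : ℕ) : twistNeg p 0 = 1 := by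
  induction p with
  | zero => simp [twistNeg]
  | succ p ih => simp [twistNeg, gauss_zero, ih]

theorem twistPos_one (p : ℕ) : ∃ x2 x3 : ℤ, R (twistPos p 1) p ((p : ℤ) ^ 2 - p) x2 x3 ∧
    6 * x2 = 4 * (p : ℤ) ^ 3 - 9 * (p : ℤ) ^ 2 + 5 * p := by
  induction p with
  | zero => exact ⟨0, 0, by simpa [twistPos] using R_zero, by simp⟩
  | succ p ih =>
    obtain ⟨x2, x3, h, h2⟩ := ih
    have e : twistPos (p + 1) 1 = 1 + q ^ 2 * twistPos p 1 := by
      simp only [twistPos, sum_range_succ, range_zero, sum_empty, gauss_zero, gauss_11,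
        twistPos_zero]
      ring
    have key := R_one.add ((R_qp 2 (x2 := 1) (x3 := 0) (by norm_num) (by norm_num)).mul h)
    rw [← e] at key
    exact ⟨_, _, key.of_eq (by push_cast; ring) (by push_cast; ring) rfl rfl,
      by push_cast; linarith⟩

theorem twistPos_two (p : ℕ) : ∃ x1 x2 x3 : ℤ, R (twistPos p 2) ((p : ℤ) ^ 2) x1 x2 x3 ∧
    6 * x1 = 16 * (p : ℤ) ^ 3 - 15 * (p : ℤ) ^ 2 - p := by
  induction p with
  | zero => exact ⟨0, 0, 0, by simpa [twistPos] using R_zero, by simp⟩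
  | succ p ih =>
    obtain ⟨x1, x2, x3, h, h1⟩ := ih
    obtain ⟨y2, y3, h', -⟩ := twistPos_one p
    have e : twistPos (p + 1) 2 = 1 + q ^ 2 * (1 + q) * twistPos p 1 + q ^ 6 * twistPos p 2 := by
      simp only [twistPos, sum_range_succ, range_zero, sum_empty, gauss_zero, gauss_21, gauss_22,
        twistPos_zero]
      ring
    have key := (R_one.add (((R_qp 2 (x2 := 1) (x3 := 0) (by norm_num) (by norm_num)).mul
      R_2).mul h')).add ((R_qp 6 (x2 := 15) (x3 := 20) (by norm_num) (by norm_num)).mul h)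
    rw [← e] at key
    exact ⟨_, _, _, key.of_eq (by push_cast; ring) rfl rfl rfl, by push_cast; linarith⟩

theorem twistPos_three (p : ℕ) : ∃ x1 x2 x3 : ℤ, R (twistPos p 3) ((p : ℤ) ^ 3) x1 x2 x3 := by
  induction p with
  | zero => exact ⟨0, 0, 0, by simpa [twistPos] using R_zero⟩
  | succ p ih =>
    obtain ⟨x1, x2, x3, h⟩ := ih
    obtain ⟨y2, y3, h', -⟩ := twistPos_one p
    obtain ⟨z1, z2, z3, h'', -⟩ := twistPos_two p
    have e : twistPos (p + 1) 3 = 1 + q ^ 2 * (1 + q + q ^ 2) * twistPos p 1 +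
        q ^ 6 * (1 + q + q ^ 2) * twistPos p 2 + q ^ 12 * twistPos p 3 := by
      simp only [twistPos, sum_range_succ, range_zero, sum_empty, gauss_zero, gauss_31, gauss_32,
        gauss_33, twistPos_zero]
      ring
    have key := ((R_one.add (((R_qp 2 (x2 := 1) (x3 := 0) (by norm_num) (by norm_num)).mul
      R_3).mul h')).add (((R_qp 6 (x2 := 15) (x3 := 20) (by norm_num) (by norm_num)).mul R_3).mul
      h'')).add ((R_qp 12 (x2 := 66) (x3 := 220) (by norm_num) (by norm_num)).mul h)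
    rw [← e] at key
    exact ⟨_, _, _, key.of_eq (by push_cast; ring) rfl rfl rfl⟩

theorem twistNeg_one (p : ℕ) : ∃ x2 x3 : ℤ,
    R (twistNeg p 1) (-p) ((-p : ℤ) ^ 2 - (-p)) x2 x3 ∧
    6 * x2 = 4 * (-p : ℤ) ^ 3 - 9 * (-p : ℤ) ^ 2 + 5 * (-p) := by
  induction p with
  | zero => exact ⟨0, 0, by simpa [twistNeg] using R_zero, by simp⟩
  | succ p ih =>
    obtain ⟨x2, x3, h, h2⟩ := ih
    have e : twistNeg (p + 1) 1 = qinv ^ 2 * (twistNeg p 1 - 1) := by
      simp only [twistNeg, sum_range_succ, range_zero, sum_empty, gauss_zero, gauss_11,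
        twistNeg_zero]
      norm_num
      left
      ring
    have key := (R_qip 2 (x2 := 3) (x3 := -4) (by norm_num) (by norm_num)).mul (h.sub R_one)
    rw [← e] at key
    exact ⟨_, _, key.of_eq (by push_cast; ring) (by push_cast; ring) rfl rfl,
      by push_cast; linarith⟩

theorem twistNeg_two (p : ℕ) : ∃ x1 x2 x3 : ℤ, R (twistNeg p 2) ((-p : ℤ) ^ 2) x1 x2 x3 ∧
    6 * x1 = 16 * (-p : ℤ) ^ 3 - 15 * (-p : ℤ) ^ 2 - (-p) := by
  induction p with
  | zero => exact ⟨0, 0, 0, by simpa [twistNeg] using R_zero, by simp⟩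
  | succ p ih =>
    obtain ⟨x1, x2, x3, h, h1⟩ := ih
    obtain ⟨y2, y3, h', -⟩ := twistNeg_one p
    have e : twistNeg (p + 1) 2 = qinv ^ 6 * (twistNeg p 2 - (1 + q) * twistNeg p 1 + q) := by
      simp only [twistNeg, sum_range_succ, range_zero, sum_empty, gauss_zero, gauss_21, gauss_22,
        twistNeg_zero]
      norm_num [Nat.choose]
      left
      ring
    have key := (R_qip 6 (x2 := 21) (x3 := -56) (by norm_num) (by norm_num)).mul
      ((h.sub (R_2.mul h')).add R_q)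
    rw [← e] at key
    exact ⟨_, _, _, key.of_eq (by push_cast; ring) rfl rfl rfl, by push_cast; linarith⟩

theorem twistNeg_three (p : ℕ) : ∃ x1 x2 x3 : ℤ, R (twistNeg p 3) ((-p : ℤ) ^ 3) x1 x2 x3 := by
  induction p with
  | zero => exact ⟨0, 0, 0, by simpa [twistNeg] using R_zero⟩
  | succ p ih =>
    obtain ⟨x1, x2, x3, h⟩ := ih
    obtain ⟨y2, y3, h', -⟩ := twistNeg_one p
    obtain ⟨z1, z2, z3, h'', -⟩ := twistNeg_two p
    have e : twistNeg (p + 1) 3 = qinv ^ 12 * (twistNeg p 3 - (1 + q + q ^ 2) * twistNeg p 2 +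
        q * ((1 + q + q ^ 2) * twistNeg p 1) - q ^ 3) := by
      simp only [twistNeg, sum_range_succ, range_zero, sum_empty, gauss_zero, gauss_31, gauss_32,
        gauss_33, twistNeg_zero]
      norm_num [Nat.choose]
      left
      ring
    have key := (R_qip 12 (x2 := 78) (x3 := -364) (by norm_num) (by norm_num)).mul
      (((h.sub (R_3.mul h'')).add (R_q.mul (R_3.mul h'))).sub
        (R_qp 3 (x2 := 3) (x3 := 1) (by norm_num) (by norm_num)))
    rw [← e] at key
    exact ⟨_, _, _, key.of_eq (by push_cast; ring) rfl rfl rfl⟩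

theorem twist_zero (p : ℤ) : twist p 0 = 1 := by
  cases p with
  | ofNat p => exact twistPos_zero p
  | negSucc p => exact twistNeg_zero (p + 1)

theorem twist_one (p : ℤ) : ∃ x2 x3 : ℤ, R (twist p 1) p (p ^ 2 - p) x2 x3 ∧
    6 * x2 = 4 * p ^ 3 - 9 * p ^ 2 + 5 * p := by
  cases p with
  | ofNat p => exact twistPos_one p
  | negSucc p =>
    have := twistNeg_one (p + 1)
    rw [show (Int.negSucc p : ℤ) = -((p + 1 : ℕ) : ℤ) from rfl]
    exact this

theorem twist_two (p : ℤ) : ∃ x1 x2 x3 : ℤ, R (twist p 2) (p ^ 2) x1 x2 x3 ∧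
    6 * x1 = 16 * p ^ 3 - 15 * p ^ 2 - p := by
  cases p with
  | ofNat p => exact twistPos_two p
  | negSucc p =>
    have := twistNeg_two (p + 1)
    rw [show (Int.negSucc p : ℤ) = -((p + 1 : ℕ) : ℤ) from rfl]
    exact this

theorem twist_three (p : ℤ) : ∃ x1 x2 x3 : ℤ, R (twist p 3) (p ^ 3) x1 x2 x3 := by
  cases p with
  | ofNat p => exact twistPos_three p
  | negSucc p =>
    have := twistNeg_three (p + 1)
    rw [show (Int.negSucc p : ℤ) = -((p + 1 : ℕ) : ℤ) from rfl]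
    exact this

end Pool.Agent.Zk52.LMO
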