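import Pool.Agent.Zk52.LMO.Calc8

set_option autoImplicit false
set_option linter.unusedSimpArgs false

/-! The first coefficients of the twist coefficients `g_{p, n}`, `n ≤ 3`, to higher order. -/

namespace Pool.Agent.Zk52.LMO

open PowerSeries Finset

/-- the coefficient of `h ^ 0` in `g_{x, 1}` -/
def T10 (x : ℚ) : ℚ := 1 * x

/-- the coefficient of `h ^ 1` in `g_{x, 1}` -/
def T11 (x : ℚ) : ℚ := (-1) * x + 1 * x ^ 2

/-- the coefficient of `h ^ 2` in `g_{x, 1}` -/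
def T12 (x : ℚ) : ℚ := 5 / 6 * x + (-3 / 2) * x ^ 2 + 2 / 3 * x ^ 3

/-- the coefficient of `h ^ 3` in `g_{x, 1}` -/
def T13 (x : ℚ) : ℚ := (-2 / 3) * x + 5 / 3 * x ^ 2 + (-4 / 3) * x ^ 3 + 1 / 3 * x ^ 4

/-- the coefficient of `h ^ 4` in `g_{x, 1}` -/
def T14 (x : ℚ) : ℚ := 8 / 15 * x + (-5 / 3) * x ^ 2 + 11 / 6 * x ^ 3 + (-5 / 6) * x ^ 4 + 2 / 15 * x ^ 5

/-- the coefficient of `h ^ 5` in `g_{x, 1}` -/
def T15 (x : ℚ) : ℚ := (-13 / 30) * x + 287 / 180 * x ^ 2 + (-13 / 6) * x ^ 3 + 49 / 36 * x ^ 4 + (-2 / 5) * x ^ 5 + 2 / 45 * x ^ 6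

/-- the coefficient of `h ^ 0` in `g_{x, 2}` -/
def T20 (x : ℚ) : ℚ := 1 * x ^ 2

/-- the coefficient of `h ^ 1` in `g_{x, 2}` -/
def T21 (x : ℚ) : ℚ := (-1 / 6) * x + (-5 / 2) * x ^ 2 + 8 / 3 * x ^ 3

/-- the coefficient of `h ^ 2` in `g_{x, 2}` -/
def T22 (x : ℚ) : ℚ := 1 / 2 * x + 19 / 6 * x ^ 2 + (-8) * x ^ 3 + 13 / 3 * x ^ 4

/-- the coefficient of `h ^ 3` in `g_{x, 2}` -/
def T23 (x : ℚ) : ℚ := (-5 / 6) * x + (-7 / 3) * x ^ 2 + 13 * x ^ 3 + (-91 / 6) * x ^ 4 + 16 / 3 * x ^ 5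

/-- the coefficient of `h ^ 0` in `g_{x, 3}` -/
def T30 (x : ℚ) : ℚ := 1 * x ^ 3

/-- the coefficient of `h ^ 1` in `g_{x, 3}` -/
def T31 (x : ℚ) : ℚ := (-1 / 2) * x ^ 2 + (-9 / 2) * x ^ 3 + 5 * x ^ 4

theorem twistPos8_1 (p : ℕ) : ∃ x6 x7 : ℚ, R8 (twistPos p 1)
    (T10 p) (T11 p) (T12 p) (T13 p) (T14 p) (T15 p) x6 x7 := by
  induction p with
  | zero =>
    refine ⟨0, 0, ?_⟩
    have h : twistPos 0 1 = 0 := by simp [twistPos]
    rw [h]
    refine R8_zero.of_eq ?_ ?_ ?_ ?_ ?_ ?_ rfl rfl <;>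
      simp [T10, T11, T12, T13, T14, T15]
  | succ p ih =>
    obtain ⟨x6, x7, h⟩ := ih
    have e : twistPos (p + 1) 1 = 1 + q ^ 2 * twistPos p 1 := by
      simp only [twistPos, sum_range_succ, range_zero, sum_empty, gauss_zero, gauss_11,
        twistPos_zero]
      ring
    have key := R8_one.add ((R8_qp 2).mul h)
    rw [← e] at key
    refine ⟨_, _, key.of_eq ?_ ?_ ?_ ?_ ?_ ?_ rfl rfl ⟩ <;>
      simp only [T10, T11, T12, T13, T14, T15] <;>
      push_cast <;> ring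

theorem twistPos8_2 (p : ℕ) : ∃ x4 x5 x6 x7 : ℚ, R8 (twistPos p 2)
    (T20 p) (T21 p) (T22 p) (T23 p) x4 x5 x6 x7 := by
  induction p with
  | zero =>
    refine ⟨0, 0, 0, 0, ?_⟩
    have h : twistPos 0 2 = 0 := by simp [twistPos]
    rw [h]
    refine R8_zero.of_eq ?_ ?_ ?_ ?_ rfl rfl rfl rfl <;>
      simp [T20, T21, T22, T23]
  | succ p ih =>
    obtain ⟨x4, x5, x6, x7, h⟩ := ih
    obtain ⟨y6, y7, h1⟩ := twistPos8_1 p
    have e : twistPos (p + 1) 2 = 1 + q ^ 2 * (1 + q) * twistPos p 1 + q ^ 6 * twistPos p 2 := by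
      simp only [twistPos, sum_range_succ, range_zero, sum_empty, gauss_zero, gauss_21, gauss_22,
        twistPos_zero]
      ring
    have key := (R8_one.add (((R8_qp 2).mul (R8_one.add R8_q)).mul h1)).add ((R8_qp 6).mul h)
    rw [← e] at key
    refine ⟨_, _, _, _, key.of_eq ?_ ?_ ?_ ?_ rfl rfl rfl rfl ⟩ <;>
      simp only [T10, T11, T12, T13, T14, T15, T20, T21, T22, T23] <;>
      push_cast <;> ring

theorem twistPos8_3 (p : ℕ) : ∃ x2 x3 x4 x5 x6 x7 : ℚ, R8 (twistPos p 3)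
    (T30 p) (T31 p) x2 x3 x4 x5 x6 x7 := by
  induction p with
  | zero =>
    refine ⟨0, 0, 0, 0, 0, 0, ?_⟩
    have h : twistPos 0 3 = 0 := by simp [twistPos]
    rw [h]
    refine R8_zero.of_eq ?_ ?_ rfl rfl rfl rfl rfl rfl <;>
      simp [T30, T31]
  | succ p ih =>
    obtain ⟨x2, x3, x4, x5, x6, x7, h⟩ := ih
    obtain ⟨y6, y7, h1⟩ := twistPos8_1 p
    obtain ⟨z4, z5, z6, z7, h2⟩ := twistPos8_2 p
    have e : twistPos (p + 1) 3 = 1 + q ^ 2 * (1 + q + q ^ 2) * twistPos p 1 +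
        q ^ 6 * (1 + q + q ^ 2) * twistPos p 2 + q ^ 12 * twistPos p 3 := by
      simp only [twistPos, sum_range_succ, range_zero, sum_empty, gauss_zero, gauss_31, gauss_32,
        gauss_33,
        twistPos_zero]
      ring
    have key := ((R8_one.add (((R8_qp 2).mul ((R8_one.add R8_q).add (R8_qp 2))).mul h1)).add
      (((R8_qp 6).mul ((R8_one.add R8_q).add (R8_qp 2))).mul h2)).add ((R8_qp 12).mul h)
    rw [← e] at key
    refine ⟨_, _, _, _, _, _, key.of_eq ?_ ?_ rfl rfl rfl rfl rfl rfl ⟩ <;>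
      simp only [T10, T11, T12, T13, T14, T15, T20, T21, T22, T23, T30, T31] <;>
      push_cast <;> ring

theorem twistNeg8_1 (p : ℕ) : ∃ x6 x7 : ℚ, R8 (twistNeg p 1)
    (T10 (-p)) (T11 (-p)) (T12 (-p)) (T13 (-p)) (T14 (-p)) (T15 (-p)) x6 x7 := by
  induction p with
  | zero =>
    refine ⟨0, 0, ?_⟩
    have h : twistNeg 0 1 = 0 := by simp [twistNeg]
    rw [h]
    refine R8_zero.of_eq ?_ ?_ ?_ ?_ ?_ ?_ rfl rfl <;>
      simp [T10, T11, T12, T13, T14, T15]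
  | succ p ih =>
    obtain ⟨x6, x7, h⟩ := ih
    have e : twistNeg (p + 1) 1 = qinv ^ 2 * (twistNeg p 1 - 1) := by
      simp only [twistNeg, sum_range_succ, range_zero, sum_empty, gauss_zero, gauss_11,
        twistNeg_zero]
      norm_num [Nat.choose]
      left
      ring
    have key := (R8_qip 2).mul (h.sub R8_one)
    rw [← e] at key
    refine ⟨_, _, key.of_eq ?_ ?_ ?_ ?_ ?_ ?_ rfl rfl ⟩ <;>
      simp only [T10, T11, T12, T13, T14, T15] <;>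
      push_cast <;> ring

theorem twistNeg8_2 (p : ℕ) : ∃ x4 x5 x6 x7 : ℚ, R8 (twistNeg p 2)
    (T20 (-p)) (T21 (-p)) (T22 (-p)) (T23 (-p)) x4 x5 x6 x7 := by
  induction p with
  | zero =>
    refine ⟨0, 0, 0, 0, ?_⟩
    have h : twistNeg 0 2 = 0 := by simp [twistNeg]
    rw [h]
    refine R8_zero.of_eq ?_ ?_ ?_ ?_ rfl rfl rfl rfl <;>
      simp [T20, T21, T22, T23]
  | succ p ih =>
    obtain ⟨x4, x5, x6, x7, h⟩ := ih
    obtain ⟨y6, y7, h1⟩ := twistNeg8_1 p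
    have e : twistNeg (p + 1) 2 = qinv ^ 6 * (twistNeg p 2 - (1 + q) * twistNeg p 1 + q) := by
      simp only [twistNeg, sum_range_succ, range_zero, sum_empty, gauss_zero, gauss_21, gauss_22,
        twistNeg_zero]
      norm_num [Nat.choose]
      left
      ring
    have key := (R8_qip 6).mul ((h.sub ((R8_one.add R8_q).mul h1)).add R8_q)
    rw [← e] at key
    refine ⟨_, _, _, _, key.of_eq ?_ ?_ ?_ ?_ rfl rfl rfl rfl ⟩ <;>
      simp only [T10, T11, T12, T13, T14, T15, T20, T21, T22, T23] <;>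
      push_cast <;> ring

theorem twistNeg8_3 (p : ℕ) : ∃ x2 x3 x4 x5 x6 x7 : ℚ, R8 (twistNeg p 3)
    (T30 (-p)) (T31 (-p)) x2 x3 x4 x5 x6 x7 := by
  induction p with
  | zero =>
    refine ⟨0, 0, 0, 0, 0, 0, ?_⟩
    have h : twistNeg 0 3 = 0 := by simp [twistNeg]
    rw [h]
    refine R8_zero.of_eq ?_ ?_ rfl rfl rfl rfl rfl rfl <;>
      simp [T30, T31]
  | succ p ih =>
    obtain ⟨x2, x3, x4, x5, x6, x7, h⟩ := ih
    obtain ⟨y6, y7, h1⟩ := twistNeg8_1 p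
    obtain ⟨z4, z5, z6, z7, h2⟩ := twistNeg8_2 p
    have e : twistNeg (p + 1) 3 = qinv ^ 12 * (twistNeg p 3 - (1 + q + q ^ 2) * twistNeg p 2 +
        q * ((1 + q + q ^ 2) * twistNeg p 1) - q ^ 3) := by
      simp only [twistNeg, sum_range_succ, range_zero, sum_empty, gauss_zero, gauss_31, gauss_32,
        gauss_33,
        twistNeg_zero]
      norm_num [Nat.choose]
      left
      ring
    have key := (R8_qip 12).mul (((h.sub (((R8_one.add R8_q).add (R8_qp 2)).mul h2)).add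
      (R8_q.mul (((R8_one.add R8_q).add (R8_qp 2)).mul h1))).sub (R8_qp 3))
    rw [← e] at key
    refine ⟨_, _, _, _, _, _, key.of_eq ?_ ?_ rfl rfl rfl rfl rfl rfl ⟩ <;>
      simp only [T10, T11, T12, T13, T14, T15, T20, T21, T22, T23, T30, T31] <;>
      push_cast <;> ring

theorem twist8_1 (p : ℤ) : ∃ x6 x7 : ℚ, R8 (twist p 1)
    (T10 p) (T11 p) (T12 p) (T13 p) (T14 p) (T15 p) x6 x7 := by
  cases p with
  | ofNat p =>
    have := twistPos8_1 p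
    rw [show (((Int.ofNat p : ℤ)) : ℚ) = (p : ℚ) by simp]
    exact this
  | negSucc p =>
    have := twistNeg8_1 (p + 1)
    rw [show (((Int.negSucc p : ℤ)) : ℚ) = -((p + 1 : ℕ) : ℚ) by push_cast; ring]
    exact this

theorem twist8_2 (p : ℤ) : ∃ x4 x5 x6 x7 : ℚ, R8 (twist p 2)
    (T20 p) (T21 p) (T22 p) (T23 p) x4 x5 x6 x7 := by
  cases p with
  | ofNat p =>
    have := twistPos8_2 p
    rw [show (((Int.ofNat p : ℤ)) : ℚ) = (p : ℚ) by simp]
    exact this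
  | negSucc p =>
    have := twistNeg8_2 (p + 1)
    rw [show (((Int.negSucc p : ℤ)) : ℚ) = -((p + 1 : ℕ) : ℚ) by push_cast; ring]
    exact this

theorem twist8_3 (p : ℤ) : ∃ x2 x3 x4 x5 x6 x7 : ℚ, R8 (twist p 3)
    (T30 p) (T31 p) x2 x3 x4 x5 x6 x7 := by
  cases p with
  | ofNat p =>
    have := twistPos8_3 p
    rw [show (((Int.ofNat p : ℤ)) : ℚ) = (p : ℚ) by simp]
    exact this
  | negSucc p =>
    have := twistNeg8_3 (p + 1)
    rw [show (((Int.negSucc p : ℤ)) : ℚ) = -((p + 1 : ℕ) : ℚ) by push_cast; ring]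
    exact this

end Pool.Agent.Zk52.LMO
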